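import Pool.Agent.L7h70.HP.Win

/-!
# The classes of directions
-/

set_option autoImplicit false

namespace Pool.Agent.L7h70.HP

open Finset Pool.Agent.W296.HL

lemma key_abs {X : ℝ × ℝ → ℤ × ℤ} {s : ℤ} {m : ℕ} {j : ℤ} {δ B r : ℝ} {p q x : ℝ × ℝ}
    (hj : |j| ≤ m) (hs : s = 1 ∨ s = -1) (hd : 0 < (s : ℝ) * (q.1 - p.1))
    (hdj : |(q.1 - p.1) * j - (q.2 - p.2) * m| ≤ (s * (q.1 - p.1)) * r)
    (hx1 : |x.1 - (X x).1| ≤ δ) (hx2 : |x.2 - (X x).2| ≤ δ)
    (hp1 : |p.1 - (X p).1| ≤ δ) (hp2 : |p.2 - (X p).2| ≤ δ) (hy : |x.1 - p.1| ≤ B) :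
    |(m : ℝ) * cr p q x - s * (q.1 - p.1) * (lv X s m j x - lv X s m j p)| ≤
      s * (q.1 - p.1) * (B * r + 4 * m * δ) := by
  have hs2 : (s : ℝ) * s = 1 := by rcases hs with rfl | rfl <;> norm_num
  have hδ : 0 ≤ δ := (abs_nonneg _).trans hx1
  have hB : 0 ≤ B := (abs_nonneg _).trans hy
  set D : ℝ := s * (q.1 - p.1) with hD
  have hr : 0 ≤ r := by
    by_contra hc
    push Not at hc
    have := (abs_nonneg _).trans hdj
    nlinarith
  have hjr : |(j : ℝ)| ≤ m := by exact_mod_cast hj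
  have hm0 : (0 : ℝ) ≤ m := Nat.cast_nonneg _
  set η1 := (x.1 - (X x).1) - (p.1 - (X p).1) with hη1
  set η2 := (x.2 - (X x).2) - (p.2 - (X p).2) with hη2
  have h1 : |η1| ≤ 2 * δ := by
    rw [hη1]; exact (abs_sub _ _).trans (by linarith)
  have h2 : |η2| ≤ 2 * δ := by
    rw [hη2]; exact (abs_sub _ _).trans (by linarith)
  have hid : (m : ℝ) * cr p q x - D * (lv X s m j x - lv X s m j p) =
      D * (s * (m * η2 - j * η1)) + ((q.1 - p.1) * j - (q.2 - p.2) * m) * (x.1 - p.1) := by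
    have e1 : q.1 - p.1 = s * D := by rw [hD, ← mul_assoc, hs2, one_mul]
    have e2 : D * (lv X s m j x - lv X s m j p : ℝ) =
        (s * D) * (m * ((X x).2 - (X p).2) - j * ((X x).1 - (X p).1)) := by
      unfold lv; push_cast; ring
    rw [e2, ← e1, hη1, hη2]
    have e3 : D * ((s : ℝ) * (m * ((x.2 - (X x).2) - (p.2 - (X p).2)) -
        j * ((x.1 - (X x).1) - (p.1 - (X p).1)))) =
        (q.1 - p.1) * (m * ((x.2 - (X x).2) - (p.2 - (X p).2)) -
        j * ((x.1 - (X x).1) - (p.1 - (X p).1))) := by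
      rw [e1]; ring
    rw [e3]
    unfold cr
    ring
  rw [hid]
  have hsabs : |(s : ℝ)| = 1 := by rcases hs with rfl | rfl <;> norm_num
  have h3 : |D * ((s : ℝ) * (m * η2 - j * η1))| ≤ D * (4 * m * δ) := by
    rw [abs_mul, abs_of_pos hd, abs_mul, hsabs, one_mul]
    refine mul_le_mul_of_nonneg_left ?_ hd.le
    refine (abs_sub _ _).trans ?_
    rw [abs_mul, abs_mul, abs_of_nonneg hm0]
    have a1 := mul_le_mul_of_nonneg_left h2 hm0
    have a2 := mul_le_mul hjr h1 (abs_nonneg _) hm0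
    linarith
  have h4 : |((q.1 - p.1) * j - (q.2 - p.2) * m) * (x.1 - p.1)| ≤ D * (B * r) := by
    rw [abs_mul]
    refine (mul_le_mul hdj hy (abs_nonneg _) (by positivity)).trans ?_
    apply le_of_eq; ring
  calc _ ≤ _ := abs_add_le _ _
    _ ≤ D * (4 * m * δ) + D * (B * r) := add_le_add h3 h4
    _ = _ := by ring

/-- the assumptions on the point set: `P` is in general position, `X` maps `P` to the grid
`[1, N]²`, at most `μ` points of `P` have the same image and every point is moved by at most `δ` -/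
structure Near (P : Finset (ℝ × ℝ)) (X : ℝ × ℝ → ℤ × ℤ) (N μ : ℕ) (δ : ℝ) : Prop where
  gen : Gen P
  mem : ∀ x ∈ P, 1 ≤ (X x).1 ∧ (X x).1 ≤ N ∧ 1 ≤ (X x).2 ∧ (X x).2 ≤ N
  fib : ∀ z, #{x ∈ P | X x = z} ≤ μ
  dis : ∀ x ∈ P, |x.1 - (X x).1| ≤ δ ∧ |x.2 - (X x).2| ≤ δ

variable {P : Finset (ℝ × ℝ)} {X : ℝ × ℝ → ℤ × ℤ} {N μ : ℕ} {δ : ℝ}

open scoped Classical in
/-- the class of a direction -/
noncomputable def Cls (P : Finset (ℝ × ℝ)) (k R m : ℕ) (s j : ℤ) :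
    Finset ((ℝ × ℝ) × (ℝ × ℝ)) :=
  (E P k).filter (fun e => IsCoprime (m : ℤ) j ∧ 0 < (s : ℝ) * (e.2.1 - e.1.1) ∧
    |(e.2.1 - e.1.1) * j - (e.2.2 - e.1.2) * m| ≤ (s * (e.2.1 - e.1.1)) * (1 / (R + 1)))

theorem cls_card (h : Near P X N μ δ) (hδ : 0 ≤ δ) (k : ℕ) {R m : ℕ} (hm : 1 ≤ m) (hmR : m ≤ R)
    (hRN : R ≤ N) {s j : ℤ} (hs : s = 1 ∨ s = -1) (hj : |j| ≤ m) :
    (#(Cls P k R m s j) : ℝ) ≤
      14 * (48 * μ * ((N : ℝ) ^ 2 / (R * m) + δ * N)) ^ (4 / 3 : ℝ) := by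
  classical
  rcases (Cls P k R m s j).eq_empty_or_nonempty with h0 | ⟨e₀, he₀⟩
  · rw [h0]
    simp only [card_empty, Nat.cast_zero]
    positivity
  have hc : IsCoprime (m : ℤ) j := by
    unfold Cls at he₀
    rw [mem_filter] at he₀
    exact he₀.2.1
  have hN1 : 1 ≤ N := (hm.trans hmR).trans hRN
  have hm' : (1 : ℝ) ≤ m := by exact_mod_cast hm
  have hR' : (1 : ℝ) ≤ R := by exact_mod_cast hm.trans hmR
  have hN' : (1 : ℝ) ≤ N := by exact_mod_cast hN1
  have hRN' : (R : ℝ) ≤ N := by exact_mod_cast hRN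
  have hmN' : (m : ℝ) ≤ N := by exact_mod_cast hmR.trans hRN
  set B : ℝ := N + 2 * δ with hB
  set T : ℝ := B * (1 / (R + 1)) + 4 * m * δ with hT
  have hT0 : 0 ≤ T := by rw [hT, hB]; positivity
  set w : ℕ := ⌊T⌋₊ + 1 with hw
  have hTw : T < (w : ℝ) := by rw [hw]; push_cast; exact Nat.lt_floor_add_one T
  have hwT : (w : ℝ) ≤ T + 1 := by
    rw [hw]; push_cast
    linarith [Nat.floor_le hT0]
  have hy : ∀ x ∈ P, ∀ p ∈ P, |x.1 - p.1| ≤ B := by
    intro x hx p hp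
    have h1 := abs_le.mp (h.dis x hx).1
    have h2 := abs_le.mp (h.dis p hp).1
    obtain ⟨a1, a2, -, -⟩ := h.mem x hx
    obtain ⟨b1, b2, -, -⟩ := h.mem p hp
    have a1' : (1 : ℝ) ≤ (X x).1 := by exact_mod_cast a1
    have a2' : ((X x).1 : ℝ) ≤ N := by exact_mod_cast a2
    have b1' : (1 : ℝ) ≤ (X p).1 := by exact_mod_cast b1
    have b2' : ((X p).1 : ℝ) ≤ N := by exact_mod_cast b2
    rw [abs_le, hB]
    constructor <;> linarith [h1.1, h1.2, h2.1, h2.2]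
  have hkey : ∀ e ∈ Cls P k R m s j, ∀ x ∈ P,
      |(m : ℝ) * cr e.1 e.2 x - s * (e.2.1 - e.1.1) * (lv X s m j x - lv X s m j e.1)| ≤
      s * (e.2.1 - e.1.1) * T ∧ 0 < (s : ℝ) * (e.2.1 - e.1.1) := by
    intro e he x hx
    unfold Cls at he
    rw [mem_filter, mem_E] at he
    obtain ⟨⟨hp, hq, hpq, -⟩, -, hd, hdj⟩ := he
    exact ⟨key_abs hj hs hd hdj (h.dis x hx).1 (h.dis x hx).2 (h.dis _ hp).1 (h.dis _ hp).2
      (hy x hx _ hp), hd⟩
  obtain ⟨i, k', hsub⟩ := window (k := k) (lv X s m j) (w := (w : ℤ)) (by rw [hw]; push_cast; omega)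
    (Cls P k R m s j) (by unfold Cls; exact filter_subset _ _)
    (by
      intro e he x hx hlev
      obtain ⟨h1, h2⟩ := hkey e he x hx
      have h3 : (w : ℝ) ≤ (lv X s m j x : ℝ) - lv X s m j e.1 := by exact_mod_cast hlev
      have h4 := (abs_le.mp h1).1
      have h5 : 0 < (m : ℝ) * cr e.1 e.2 x := by
        have h6 : s * (e.2.1 - e.1.1) * T < s * (e.2.1 - e.1.1) *
            ((lv X s m j x : ℝ) - lv X s m j e.1) :=
          mul_lt_mul_of_pos_left (lt_of_lt_of_le hTw h3) h2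
        linarith
      exact (mul_pos_iff_of_pos_left (by linarith)).mp h5)
    (by
      intro e he x hx hlev
      obtain ⟨h1, h2⟩ := hkey e he x hx
      have h3 : (lv X s m j x : ℝ) - lv X s m j e.1 ≤ -(w : ℝ) := by exact_mod_cast hlev
      have h4 := (abs_le.mp h1).2
      have h5 : (m : ℝ) * cr e.1 e.2 x < 0 := by
        have h6 : s * (e.2.1 - e.1.1) * ((lv X s m j x : ℝ) - lv X s m j e.1) <
            s * (e.2.1 - e.1.1) * (-T) :=
          mul_lt_mul_of_pos_left (by linarith) h2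
        linarith
      by_contra h6
      push Not at h6
      have : 0 ≤ (m : ℝ) * cr e.1 e.2 x := by positivity
      linarith)
  set A := P.filter (fun x => i - w + 1 ≤ lv X s m j x ∧ lv X s m j x ≤ i + 3 * w - 3) with hA
  have hAP : A ⊆ P := filter_subset _ _
  have hAgen : Gen A := fun p hp q hq x hx => h.gen p (hAP hp) q (hAP hq) x (hAP hx)
  have h1 : (#(Cls P k R m s j) : ℝ) ≤ 14 * (#A : ℝ) ^ (4 / 3 : ℝ) :=
    (by exact_mod_cast card_le_card hsub : (#(Cls P k R m s j) : ℝ) ≤ #(E A k')).trans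
      (E_card hAgen k')
  have h2 : #A ≤ (4 * w) * ((N / m + 1) * μ) := by
    refine le_trans (card_le_card ?_) (strip_card h.mem h.fib hm hc hs (i - w + 1) (4 * w))
    intro x hx
    rw [hA, mem_filter] at hx
    rw [mem_filter]
    refine ⟨hx.1, hx.2.1, ?_⟩
    push_cast
    omega
  have h3 : (#A : ℝ) ≤ 48 * μ * ((N : ℝ) ^ 2 / (R * m) + δ * N) := by
    have h4 : (#A : ℝ) ≤ (4 * w) * (((N / m : ℕ) + 1) * μ) := by exact_mod_cast h2
    have h5 : ((N / m : ℕ) : ℝ) ≤ N / m := Nat.cast_div_le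
    have hmpos : (0 : ℝ) < m := by linarith
    have hRpos : (0 : ℝ) < R := by linarith
    have h6 : (1 : ℝ) ≤ N / m := by rw [le_div_iff₀ hmpos]; linarith
    have h7 : (((N / m : ℕ) : ℝ) + 1) ≤ 2 * (N / m) := by linarith
    have h8 : (w : ℝ) ≤ 2 * (N / R) + 6 * m * δ := by
      have a1 : (N : ℝ) * (1 / (R + 1)) ≤ N / R := by
        rw [mul_one_div]
        exact div_le_div_of_nonneg_left (by linarith) hRpos (by linarith)
      have a2 : 2 * δ * (1 / ((R : ℝ) + 1)) ≤ 2 * δ := by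
        have : (1 / ((R : ℝ) + 1)) ≤ 1 := by
          rw [div_le_one (by linarith)]; linarith
        nlinarith
      have a3 : 2 * δ ≤ 2 * m * δ := by nlinarith
      have a4 : (1 : ℝ) ≤ N / R := by rw [le_div_iff₀ hRpos]; linarith
      have a5 : T = N * (1 / (R + 1)) + 2 * δ * (1 / (R + 1)) + 4 * m * δ := by
        rw [hT, hB]; ring
      rw [a5] at hwT
      linarith
    have hμ0 : (0 : ℝ) ≤ μ := Nat.cast_nonneg _
    calc (#A : ℝ) ≤ (4 * w) * (((N / m : ℕ) + 1) * μ) := h4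
      _ ≤ (4 * (2 * (N / R) + 6 * m * δ)) * ((2 * (N / m)) * μ) := by
          apply mul_le_mul (by linarith) (mul_le_mul_of_nonneg_right h7 hμ0) (by positivity)
            (by positivity)
      _ = μ * (16 * ((N : ℝ) ^ 2 / (R * m)) + 48 * (δ * N)) := by field_simp; ring
      _ ≤ 48 * μ * ((N : ℝ) ^ 2 / (R * m) + δ * N) := by
          have : (0 : ℝ) ≤ (N : ℝ) ^ 2 / (R * m) := by positivity
          nlinarith
  refine h1.trans ?_
  refine mul_le_mul_of_nonneg_left ?_ (by norm_num)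
  exact Real.rpow_le_rpow (Nat.cast_nonneg _) h3 (by norm_num)

open scoped Classical in
/-- the edges whose direction is nearer to the first axis -/
noncomputable def E1 (P : Finset (ℝ × ℝ)) (k : ℕ) : Finset ((ℝ × ℝ) × (ℝ × ℝ)) :=
  (E P k).filter (fun e => |e.2.2 - e.1.2| ≤ |e.2.1 - e.1.1|)

lemma cover (k : ℕ) {R : ℕ} (hR : 1 ≤ R) : E1 P k ⊆
    (Icc 1 R).biUnion (fun m => ({1, -1} : Finset ℤ).biUnion (fun s =>
      (Icc (-(m : ℤ)) m).biUnion (fun j => Cls P k R m s j))) := by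
  classical
  intro e he
  unfold E1 at he
  rw [mem_filter] at he
  obtain ⟨he1, he2⟩ := he
  have hE := mem_E.mp he1
  set d1 := e.2.1 - e.1.1 with hd1
  set d2 := e.2.2 - e.1.2 with hd2
  have hne : d1 ≠ 0 := by
    intro h0
    rw [h0, abs_zero] at he2
    have h3 : d2 = 0 := abs_eq_zero.mp (le_antisymm he2 (abs_nonneg _))
    apply hE.2.2.1
    exact Prod.ext (by linarith) (by linarith)
  have hσ : |d2 / d1| ≤ 1 := by
    rw [abs_div, div_le_one (abs_pos.mpr hne)]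
    exact he2
  obtain ⟨r, hr1, hr2⟩ := Real.exists_rat_abs_sub_le_and_den_le (d2 / d1) hR
  have hden : 1 ≤ r.den := r.pos
  have hdenR : (1 : ℝ) ≤ r.den := by exact_mod_cast hden
  have hRR : (1 : ℝ) ≤ R := by exact_mod_cast hR
  have hrr : (r : ℝ) = r.num / r.den := by exact_mod_cast (Rat.num_div_den r).symm
  obtain ⟨s, hs, hsd⟩ : ∃ s : ℤ, (s = 1 ∨ s = -1) ∧ (s : ℝ) * d1 = |d1| := by
    rcases lt_or_gt_of_ne hne with h | h
    · exact ⟨-1, Or.inr rfl, by rw [abs_of_neg h]; push_cast; ring⟩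
    · exact ⟨1, Or.inl rfl, by rw [abs_of_pos h]; push_cast; ring⟩
  have hpos : 0 < |d1| := abs_pos.mpr hne
  have hmain : |d1 * r.num - d2 * r.den| ≤ |d1| * (1 / (R + 1)) := by
    have e1 : d1 * r.num - d2 * r.den = - (d1 * r.den * (d2 / d1 - r)) := by
      rw [hrr]; field_simp; ring
    rw [e1, abs_neg, abs_mul, abs_mul, abs_of_pos (by linarith : (0 : ℝ) < r.den)]
    have h3 : |d1| * (r.den : ℝ) * |d2 / d1 - r| ≤
        |d1| * (r.den : ℝ) * (1 / ((R + 1) * r.den)) :=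
      mul_le_mul_of_nonneg_left hr1 (by positivity)
    refine h3.trans (le_of_eq ?_)
    field_simp
  have hnum : |r.num| ≤ (r.den : ℤ) := by
    have h3 : |(r : ℝ)| ≤ 1 + 1 / ((R + 1) * r.den) := by
      have := abs_sub_abs_le_abs_sub (r : ℝ) (d2 / d1)
      rw [abs_sub_comm] at this
      linarith
    have h4 : |(r.num : ℝ)| = |(r : ℝ)| * r.den := by
      rw [hrr, abs_div, abs_of_pos (by linarith : (0 : ℝ) < r.den)]
      field_simp
    have h5 : |(r.num : ℝ)| ≤ r.den + 1 / (R + 1) := by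
      rw [h4]
      calc |(r : ℝ)| * r.den ≤ (1 + 1 / ((R + 1) * r.den)) * r.den :=
            mul_le_mul_of_nonneg_right h3 (by linarith)
        _ = r.den + 1 / (R + 1) := by field_simp
    have h6 : 1 / ((R : ℝ) + 1) < 1 := by
      rw [div_lt_one (by linarith)]; linarith
    have h7 : |(r.num : ℝ)| < r.den + 1 := by linarith
    have h8 : |r.num| < (r.den : ℤ) + 1 := by exact_mod_cast h7
    omega
  rw [mem_biUnion]
  refine ⟨r.den, mem_Icc.mpr ⟨hden, hr2⟩, ?_⟩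
  rw [mem_biUnion]
  refine ⟨s, by rcases hs with rfl | rfl <;> simp, ?_⟩
  rw [mem_biUnion]
  refine ⟨r.num, mem_Icc.mpr (abs_le.mp hnum), ?_⟩
  unfold Cls
  rw [mem_filter]
  refine ⟨he1, ?_, ?_, ?_⟩
  · have := r.reduced
    rw [Int.isCoprime_iff_gcd_eq_one, Int.gcd_comm]
    unfold Int.gcd
    simpa using this
  · rw [← hd1, hsd]; exact hpos
  · rw [← hd1, ← hd2, hsd]; exact hmain

theorem E1_card (h : Near P X N μ δ) (hδ : 0 ≤ δ) (k : ℕ) {R : ℕ} (hR : 1 ≤ R) (hRN : R ≤ N) :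
    (#(E1 P k) : ℝ) ≤ ∑ m ∈ Icc 1 R,
      84 * (m : ℝ) * (48 * μ * ((N : ℝ) ^ 2 / (R * m) + δ * N)) ^ (4 / 3 : ℝ) := by
  classical
  have h1 := (card_le_card (cover (P := P) k hR)).trans card_biUnion_le
  have h2 : (#(E1 P k) : ℝ) ≤ ∑ m ∈ Icc 1 R, (#(({1, -1} : Finset ℤ).biUnion (fun s =>
      (Icc (-(m : ℤ)) m).biUnion (fun j => Cls P k R m s j))) : ℝ) := by exact_mod_cast h1
  refine h2.trans (Finset.sum_le_sum fun m hm => ?_)
  rw [mem_Icc] at hm
  have hm1 : (1 : ℝ) ≤ m := by exact_mod_cast hm.1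
  set G := 14 * (48 * μ * ((N : ℝ) ^ 2 / (R * m) + δ * N)) ^ (4 / 3 : ℝ) with hG
  have hG0 : 0 ≤ G := by rw [hG]; positivity
  have h3 : ∀ s ∈ ({1, -1} : Finset ℤ),
      (#((Icc (-(m : ℤ)) m).biUnion (fun j => Cls P k R m s j)) : ℝ) ≤ (2 * m + 1) * G := by
    intro s hs
    have hs' : s = 1 ∨ s = -1 := by simpa using hs
    have h4 : (#((Icc (-(m : ℤ)) m).biUnion (fun j => Cls P k R m s j)) : ℝ) ≤
        ∑ j ∈ Icc (-(m : ℤ)) m, (#(Cls P k R m s j) : ℝ) := by exact_mod_cast card_biUnion_le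
    refine h4.trans ?_
    have h5 : ∀ j ∈ Icc (-(m : ℤ)) m, (#(Cls P k R m s j) : ℝ) ≤ G := by
      intro j hj
      rw [mem_Icc] at hj
      exact cls_card h hδ k hm.1 hm.2 hRN hs' (abs_le.mpr hj)
    refine (Finset.sum_le_card_nsmul _ _ _ h5).trans ?_
    rw [Int.card_Icc, nsmul_eq_mul]
    apply le_of_eq
    congr 1
    have : ((m : ℤ) + 1 - -(m : ℤ)).toNat = 2 * m + 1 := by omega
    rw [this]; push_cast; ring
  have h6 : (#(({1, -1} : Finset ℤ).biUnion (fun s =>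
      (Icc (-(m : ℤ)) m).biUnion (fun j => Cls P k R m s j))) : ℝ) ≤
      ∑ s ∈ ({1, -1} : Finset ℤ), (#((Icc (-(m : ℤ)) m).biUnion (fun j => Cls P k R m s j)) : ℝ) := by
    exact_mod_cast card_biUnion_le
  refine h6.trans ((Finset.sum_le_card_nsmul _ _ _ h3).trans ?_)
  have h7 : #({1, -1} : Finset ℤ) = 2 := by decide
  rw [h7, nsmul_eq_mul]
  have h8 : 84 * (m : ℝ) * (48 * μ * ((N : ℝ) ^ 2 / (R * m) + δ * N)) ^ (4 / 3 : ℝ) =
      6 * m * G := by rw [hG]; ring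
  rw [h8]
  push_cast
  nlinarith

end Pool.Agent.L7h70.HP
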