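import Pool.Agent.Y429.HalvFew

/-!
# Directed edges with exactly `k` points on the left, and Dey's bound
-/

set_option autoImplicit false

namespace Pool.Agent.L7h70.HP

open Finset Pool.Agent.W296.HL Pool.Agent.Y429.HalvFew

open scoped Classical in
/-- directed pairs of distinct points of `P` with exactly `k` points of `P` on the left -/
noncomputable def E (P : Finset (ℝ × ℝ)) (k : ℕ) : Finset ((ℝ × ℝ) × (ℝ × ℝ)) :=
  (P ×ˢ P).filter (fun e => e.1 ≠ e.2 ∧ #{x ∈ P | 0 < cr e.1 e.2 x} = k)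

lemma mem_E {P : Finset (ℝ × ℝ)} {k : ℕ} {e : (ℝ × ℝ) × (ℝ × ℝ)} :
    e ∈ E P k ↔ e.1 ∈ P ∧ e.2 ∈ P ∧ e.1 ≠ e.2 ∧ #{x ∈ P | 0 < cr e.1 e.2 x} = k := by
  classical
  unfold E
  rw [mem_filter, mem_product, and_assoc]

lemma three (P : Finset (ℝ × ℝ)) (hP : Gen P) {p q : ℝ × ℝ} (hp : p ∈ P) (hq : q ∈ P)
    (hpq : p ≠ q) : #{x ∈ P | 0 < cr p q x} + #{x ∈ P | cr p q x < 0} + 2 = #P := by
  classical
  have h2 : #{x ∈ P | cr p q x = 0} = 2 := by
    rw [← card_pair hpq]
    congr 1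
    ext x
    simp only [mem_filter, mem_insert, mem_singleton]
    constructor
    · rintro ⟨hx, h⟩
      by_contra hcon
      push Not at hcon
      exact hP p hp q hq x hx hpq hcon.1.symm hcon.2.symm h
    · rintro (rfl | rfl)
      · exact ⟨hp, by unfold cr; ring⟩
      · exact ⟨hq, by unfold cr; ring⟩
  have h3 := Finset.card_filter_add_card_filter_not (s := P) (fun x => 0 < cr p q x)
  have h4 := Finset.card_filter_add_card_filter_not
    (s := P.filter (fun x => ¬ 0 < cr p q x)) (fun x => cr p q x < 0)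
  have h5 : (P.filter (fun x => ¬ 0 < cr p q x)).filter (fun x => cr p q x < 0) =
      P.filter (fun x => cr p q x < 0) := by
    ext x
    simp only [mem_filter]
    exact ⟨fun h => ⟨h.1.1, h.2⟩, fun h => ⟨⟨h.1, not_lt.mpr h.2.le⟩, h.2⟩⟩
  have h6 : (P.filter (fun x => ¬ 0 < cr p q x)).filter (fun x => ¬ cr p q x < 0) =
      P.filter (fun x => cr p q x = 0) := by
    ext x
    simp only [mem_filter]
    exact ⟨fun h => ⟨h.1.1, le_antisymm (not_lt.mp h.1.2) (not_lt.mp h.2)⟩,
      fun h => ⟨⟨h.1, by rw [h.2]; exact lt_irrefl _⟩, by rw [h.2]; exact lt_irrefl _⟩⟩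
  rw [h5, h6, h2] at h4
  omega

/-- Dey's bound for the edges of `kes`. -/
lemma kes_le {P : Finset (ℝ × ℝ)} (hP : TH124.KE.GP P) (k : ℕ) :
    (#(TH124.KE.kes P k) : ℝ) ≤ 7 * (#P : ℝ) ^ (4 / 3 : ℝ) := by
  classical
  have h := TH124.KE.kes_bound (k := k) hP (c := 0) (fun i => i.elim0) (fun i => i.elim0)
  have e : (#(P \ univ.biUnion (fun i : Fin 0 => (i.elim0 : Finset (ℝ × ℝ)))) : ℝ) = #P := by
    congr 2
    ext x
    simp
  rw [e] at h
  have h0 : (0 : ℝ) ≤ #P := Nat.cast_nonneg _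
  have e2 : ((#P : ℝ) * #P) ^ (2 / 3 : ℝ) = (#P : ℝ) ^ (4 / 3 : ℝ) := by
    rw [← pow_two, ← Real.rpow_natCast, ← Real.rpow_mul h0]
    norm_num
  rw [e2] at h
  simpa using h

lemma bel_shr {P : Finset (ℝ × ℝ)} {ε : ℝ} {p q : ℝ × ℝ} (h : (shr ε p).1 < (shr ε q).1) :
    TH124.KE.bel (P.image (shr ε)) (TH124.KE.sl (shr ε p) (shr ε q)) (shr ε p) =
      #{x ∈ P | cr p q x < 0} := by
  classical
  unfold TH124.KE.bel
  rw [Finset.filter_image, Finset.card_image_of_injective _ (shr_inj ε)]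
  congr 1
  ext x
  rw [mem_filter, mem_filter, below_iff h, cr_shr]

/-- **Dey's bound** for directed edges. -/
theorem E_card {P : Finset (ℝ × ℝ)} (hP : Gen P) (k : ℕ) :
    (#(E P k) : ℝ) ≤ 14 * (#P : ℝ) ^ (4 / 3 : ℝ) := by
  classical
  obtain ⟨ε, hε⟩ := exists_shear P
  have hGP := gp_shear hP hε
  have hc : #(P.image (shr ε)) = #P := Finset.card_image_of_injective _ (shr_inj ε)
  have h1 := kes_le hGP k
  have h2 := kes_le hGP (#P - 2 - k)
  rw [hc] at h1 h2
  have hsplit := Finset.card_filter_add_card_filter_not (s := E P k)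
    (fun e => (shr ε e.1).1 < (shr ε e.2).1)
  have hA : #((E P k).filter (fun e => (shr ε e.1).1 < (shr ε e.2).1)) ≤
      #(TH124.KE.kes (P.image (shr ε)) (#P - 2 - k)) := by
    refine card_le_card_of_injOn (fun e => (shr ε e.1, shr ε e.2)) ?_ ?_
    · intro e he
      rw [mem_coe, mem_filter, mem_E] at he
      obtain ⟨⟨h3, h4, h5, h6⟩, h7⟩ := he
      rw [mem_coe, TH124.KE.mem_kes]
      refine ⟨mem_image_of_mem _ h3, mem_image_of_mem _ h4, h7, ?_⟩
      rw [bel_shr h7]
      have := three P hP h3 h4 h5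
      omega
    · intro e _ f _ h
      rw [Prod.mk.injEq] at h
      exact Prod.ext (shr_inj ε h.1) (shr_inj ε h.2)
  have hB : #((E P k).filter (fun e => ¬ (shr ε e.1).1 < (shr ε e.2).1)) ≤
      #(TH124.KE.kes (P.image (shr ε)) k) := by
    refine card_le_card_of_injOn (fun e => (shr ε e.2, shr ε e.1)) ?_ ?_
    · intro e he
      rw [mem_coe, mem_filter, mem_E] at he
      obtain ⟨⟨h3, h4, h5, h6⟩, h7⟩ := he
      have h8 : (shr ε e.2).1 < (shr ε e.1).1 := by
        rcases lt_or_eq_of_le (not_lt.mp h7) with h | h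
        · exact h
        · exact absurd (hε _ h4 _ h3 h).symm h5
      rw [mem_coe, TH124.KE.mem_kes]
      refine ⟨mem_image_of_mem _ h4, mem_image_of_mem _ h3, h8, ?_⟩
      rw [bel_shr h8, ← h6]
      congr 1
      ext x
      rw [mem_filter, mem_filter, cr_swap e.1 e.2 x]
      simp
    · intro e _ f _ h
      rw [Prod.mk.injEq] at h
      exact Prod.ext (shr_inj ε h.2) (shr_inj ε h.1)
  have h3 : (#(E P k) : ℝ) ≤ #(TH124.KE.kes (P.image (shr ε)) (#P - 2 - k)) +
      #(TH124.KE.kes (P.image (shr ε)) k) := by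
    rw [← hsplit]
    push_cast
    exact add_le_add (by exact_mod_cast hA) (by exact_mod_cast hB)
  linarith

/-- `L` is a line through two distinct points of `P` such that one of the two open half-planes
bounded by it contains exactly `k` points of `P`. -/
def IsKLine (P : Finset (ℝ × ℝ)) (k : ℕ) (L : Set (ℝ × ℝ)) : Prop :=
  ∃ a b c : ℝ, (a ≠ 0 ∨ b ≠ 0) ∧ L = Line a b c ∧
    (∃ p ∈ P, ∃ q ∈ P, p ≠ q ∧ p ∈ L ∧ q ∈ L) ∧
    {p : ℝ × ℝ | p ∈ P ∧ c < a * p.1 + b * p.2}.ncard = k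

lemma edge_of_kline {P : Finset (ℝ × ℝ)} {k : ℕ} {L : Set (ℝ × ℝ)} (h : IsKLine P k L) :
    ∃ e : (ℝ × ℝ) × (ℝ × ℝ), e ∈ E P k ∧ L = {x | cr e.1 e.2 x = 0} := by
  classical
  obtain ⟨a, b, c, hab, rfl, ⟨p, hp, q, hq, hpq, hpL, hqL⟩, h1⟩ := h
  simp only [Line, Set.mem_ofPred_eq] at hpL hqL
  have h1' : #{x ∈ P | c < a * x.1 + b * x.2} = k := by
    rw [← h1, ← Set.ncard_coe_finset]
    congr 1
    ext x
    simp
  set d1 := q.1 - p.1 with hd1
  set d2 := q.2 - p.2 with hd2
  have hd : a * d1 + b * d2 = 0 := by rw [hd1, hd2]; linarith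
  have hN : 0 < d1 ^ 2 + d2 ^ 2 := by
    by_contra h
    have h3 : d1 = 0 := by nlinarith [sq_nonneg d1, sq_nonneg d2]
    have h4 : d2 = 0 := by nlinarith [sq_nonneg d1, sq_nonneg d2]
    apply hpq
    exact Prod.ext (by linarith) (by linarith)
  set lam := (b * d1 - a * d2) / (d1 ^ 2 + d2 ^ 2) with hlam
  have hl : lam * (d1 ^ 2 + d2 ^ 2) = b * d1 - a * d2 := by rw [hlam]; field_simp
  have hb : b = lam * d1 := by
    have : (b - lam * d1) * (d1 ^ 2 + d2 ^ 2) = 0 := by
      linear_combination (-d1) * hl + d2 * hd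
    have := (mul_eq_zero.mp this).resolve_right hN.ne'
    linarith
  have ha : a = - (lam * d2) := by
    have : (a + lam * d2) * (d1 ^ 2 + d2 ^ 2) = 0 := by
      linear_combination d2 * hl + d1 * hd
    have := (mul_eq_zero.mp this).resolve_right hN.ne'
    linarith
  have hlam0 : lam ≠ 0 := by
    intro h0
    rw [h0] at ha hb
    rcases hab with h | h
    · apply h; rw [ha]; ring
    · apply h; rw [hb]; ring
  have hkey : ∀ x : ℝ × ℝ, a * x.1 + b * x.2 - c = lam * cr p q x := by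
    intro x
    have : c = a * p.1 + b * p.2 := hpL.symm
    rw [this, ha, hb]
    unfold cr
    rw [← hd1, ← hd2]; ring
  have hset : Line a b c = {x | cr p q x = 0} := by
    ext x
    simp only [Line, Set.mem_ofPred_eq]
    have := hkey x
    constructor
    · intro h
      have h3 : lam * cr p q x = 0 := by rw [← this]; linarith
      exact (mul_eq_zero.mp h3).resolve_left hlam0
    · intro h
      rw [h, mul_zero] at this
      linarith
  rcases lt_or_gt_of_ne hlam0 with hl0 | hl0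
  · refine ⟨(q, p), mem_E.mpr ⟨hq, hp, hpq.symm, ?_⟩, ?_⟩
    · rw [← h1']; congr 1; ext x
      simp only [mem_filter, and_congr_right_iff]
      intro _
      have := hkey x
      rw [cr_swap p q x]
      constructor
      · intro h
        have h5 : cr p q x < 0 := by linarith
        have := mul_pos_of_neg_of_neg hl0 h5
        linarith
      · intro h
        by_contra h3
        have h5 : 0 ≤ cr p q x := by linarith
        have := mul_nonpos_of_nonpos_of_nonneg hl0.le h5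
        linarith
    · rw [hset]
      ext x
      simp only [Set.mem_ofPred_eq, cr_swap p q x, neg_eq_zero]
  · refine ⟨(p, q), mem_E.mpr ⟨hp, hq, hpq, ?_⟩, hset⟩
    rw [← h1']; congr 1; ext x
    simp only [mem_filter, and_congr_right_iff]
    intro _
    have := hkey x
    constructor
    · intro h
      have := mul_pos hl0 h
      linarith
    · intro h
      by_contra h3
      have := mul_nonpos_of_nonneg_of_nonpos hl0.le (not_lt.mp h3)
      linarith

lemma kline_sub (P : Finset (ℝ × ℝ)) (k : ℕ) : {L | IsKLine P k L} ⊆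
    (fun e : (ℝ × ℝ) × (ℝ × ℝ) => {x | cr e.1 e.2 x = 0}) ''
      (E P k : Set ((ℝ × ℝ) × (ℝ × ℝ))) := by
  intro L hL
  obtain ⟨e, he, hLe⟩ := edge_of_kline hL
  exact ⟨e, mem_coe.mpr he, hLe.symm⟩

lemma kline_finite (P : Finset (ℝ × ℝ)) (k : ℕ) : {L | IsKLine P k L}.Finite :=
  ((E P k).finite_toSet.image _).subset (kline_sub P k)

theorem kline_le (P : Finset (ℝ × ℝ)) (k : ℕ) : {L | IsKLine P k L}.ncard ≤ #(E P k) := by
  classical
  refine (Set.ncard_le_ncard (kline_sub P k) ((E P k).finite_toSet.image _)).trans ?_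
  refine (Set.ncard_image_le (E P k).finite_toSet).trans ?_
  rw [Set.ncard_coe_finset]

lemma bisector_kline {P : Finset (ℝ × ℝ)} {L : Set (ℝ × ℝ)} (h : IsBisector P L) :
    IsKLine P (#P / 2 - 1) L := by
  classical
  obtain ⟨a, b, c, hab, hL, hpq, -, h2⟩ := h
  refine ⟨a, b, c, hab, hL, hpq, ?_⟩
  rw [← h2, ← Set.ncard_coe_finset]
  congr 1
  ext x
  simp

end Pool.Agent.L7h70.HP
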