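import Pool.Agent.L7h70.HP.Cls

/-!
# Summation over the classes and choice of the parameter
-/

set_option autoImplicit false

namespace Pool.Agent.L7h70.HP

open Finset Pool.Agent.W296.HL

lemma sum_rpow (R : ℕ) : ∑ m ∈ Icc 1 R, (m : ℝ) ^ (-(1 / 3) : ℝ) ≤
    (3 / 2) * (R : ℝ) ^ (2 / 3 : ℝ) := by
  induction R with
  | zero => simp
  | succ R ih =>
    rw [Finset.sum_Icc_succ_top (by omega)]
    refine (add_le_add_left ih _).trans ?_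
    have hpos : (0 : ℝ) < (R : ℝ) + 1 := by positivity
    push_cast
    have h1 : (R : ℝ) = (R + 1) * (1 + -(1 / ((R : ℝ) + 1))) := by field_simp; ring
    have h2 : (1 + -(1 / ((R : ℝ) + 1))) ^ (2 / 3 : ℝ) ≤ 1 + (2 / 3) * -(1 / ((R : ℝ) + 1)) := by
      apply rpow_one_add_le_one_add_mul_self _ (by norm_num) (by norm_num)
      have : 1 / ((R : ℝ) + 1) ≤ 1 := by
        rw [div_le_one hpos]
        linarith [Nat.cast_nonneg (α := ℝ) R]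
      linarith
    have h3 : (0 : ℝ) ≤ 1 + -(1 / ((R : ℝ) + 1)) := by
      have : 1 / ((R : ℝ) + 1) ≤ 1 := by
        rw [div_le_one hpos]
        linarith [Nat.cast_nonneg (α := ℝ) R]
      linarith
    have h4 : (R : ℝ) ^ (2 / 3 : ℝ) ≤ ((R : ℝ) + 1) ^ (2 / 3 : ℝ) *
        (1 + (2 / 3) * -(1 / ((R : ℝ) + 1))) := by
      conv_lhs => rw [h1]
      rw [Real.mul_rpow hpos.le h3]
      exact mul_le_mul_of_nonneg_left h2 (by positivity)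
    have h5 : ((R : ℝ) + 1) ^ (-(1 / 3) : ℝ) = ((R : ℝ) + 1) ^ (2 / 3 : ℝ) / (R + 1) := by
      rw [eq_div_iff hpos.ne']
      nth_rewrite 2 [← Real.rpow_one ((R : ℝ) + 1)]
      rw [← Real.rpow_add hpos]
      norm_num
    rw [h5]
    have h6 : ((R : ℝ) + 1) ^ (2 / 3 : ℝ) * (1 + (2 / 3) * -(1 / ((R : ℝ) + 1))) =
        ((R : ℝ) + 1) ^ (2 / 3 : ℝ) - (2 / 3) * (((R : ℝ) + 1) ^ (2 / 3 : ℝ) / (R + 1)) := by
      field_simp
      ring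
    rw [h6] at h4
    linarith

lemma add_rpow {a b : ℝ} (ha : 0 ≤ a) (hb : 0 ≤ b) :
    (a + b) ^ (4 / 3 : ℝ) ≤ 4 * (a ^ (4 / 3 : ℝ) + b ^ (4 / 3 : ℝ)) := by
  have h0 : (2 : ℝ) ^ (4 / 3 : ℝ) ≤ 4 := by
    calc (2 : ℝ) ^ (4 / 3 : ℝ) ≤ (2 : ℝ) ^ (2 : ℝ) :=
          Real.rpow_le_rpow_of_exponent_le (by norm_num) (by norm_num)
      _ = 4 := by norm_num
  have key : ∀ a b : ℝ, 0 ≤ a → a ≤ b → (a + b) ^ (4 / 3 : ℝ) ≤
      4 * (a ^ (4 / 3 : ℝ) + b ^ (4 / 3 : ℝ)) := by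
    intro a b ha hab
    have h1 : (a + b) ^ (4 / 3 : ℝ) ≤ (2 * b) ^ (4 / 3 : ℝ) :=
      Real.rpow_le_rpow (by linarith) (by linarith) (by norm_num)
    rw [Real.mul_rpow (by norm_num) (ha.trans hab)] at h1
    have h2 : 0 ≤ a ^ (4 / 3 : ℝ) := Real.rpow_nonneg ha _
    have h3 : 0 ≤ b ^ (4 / 3 : ℝ) := Real.rpow_nonneg (ha.trans hab) _
    have := mul_le_mul_of_nonneg_right h0 h3
    linarith
  rcases le_total a b with h | h
  · exact key a b ha h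
  · rw [add_comm a b, add_comm (a ^ _)]
    exact key b a hb h

lemma cube_rpow {x : ℝ} (hx : 0 ≤ x) : (x ^ 3) ^ (4 / 3 : ℝ) = x ^ 4 := by
  rw [← Real.rpow_natCast, ← Real.rpow_mul hx, ← Real.rpow_natCast]
  norm_num

lemma cube_rpow' {x : ℝ} (hx : 0 ≤ x) : (x ^ 3) ^ (2 / 3 : ℝ) = x ^ 2 := by
  rw [← Real.rpow_natCast, ← Real.rpow_mul hx, ← Real.rpow_natCast]
  norm_num

lemma rpow48 : (48 : ℝ) ^ (4 / 3 : ℝ) ≤ 200 := by
  have h1 : (48 : ℝ) ^ (4 / 3 : ℝ) = ((48 : ℝ) ^ 4) ^ (1 / 3 : ℝ) := by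
    rw [← Real.rpow_natCast, ← Real.rpow_mul (by norm_num)]
    norm_num
  have h2 : (200 : ℝ) = ((200 : ℝ) ^ 3) ^ (1 / 3 : ℝ) := by
    rw [← Real.rpow_natCast, ← Real.rpow_mul (by norm_num)]
    norm_num
  rw [h1, h2]
  exact Real.rpow_le_rpow (by norm_num) (by norm_num) (by norm_num)

/-- the numerical part: `u = √(1 + δ N) ≤ N` -/
lemma numeric {N : ℕ} {μ Λ u : ℝ} (hμ : 0 ≤ μ) (hΛ : 0 ≤ Λ) (hu1 : 1 ≤ u)
    (hΛu : Λ ≤ u ^ 2) (huN : u ≤ N) :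
    ∃ R : ℕ, 1 ≤ R ∧ R ≤ N ∧ ∑ m ∈ Icc 1 R,
      84 * (m : ℝ) * (48 * μ * ((N : ℝ) ^ 2 / (R * m) + Λ)) ^ (4 / 3 : ℝ) ≤
      470400 * (μ ^ (4 / 3 : ℝ) * ((N : ℝ) ^ 2 * u ^ (2 / 3 : ℝ))) := by
  have hN0 : (0 : ℝ) < N := by linarith
  have hu0 : 0 < u := by linarith
  set x : ℝ := N / u with hx
  have hx1 : 1 ≤ x := by rw [hx, le_div_iff₀ hu0]; linarith
  have hxN : x ≤ N := by rw [hx, div_le_iff₀ hu0]; nlinarith
  set R := ⌊x⌋₊ with hR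
  have hR1 : 1 ≤ R := Nat.le_floor (by simpa using hx1)
  have hRx : (R : ℝ) ≤ x := Nat.floor_le (by linarith)
  have hxR : x < R + 1 := Nat.lt_floor_add_one x
  have hR1' : (1 : ℝ) ≤ R := by exact_mod_cast hR1
  refine ⟨R, hR1, by exact_mod_cast hRx.trans hxN, ?_⟩
  -- cube roots
  obtain ⟨a, ha, hua⟩ : ∃ a : ℝ, 0 < a ∧ u = a ^ 3 := by
    refine ⟨u ^ (1 / 3 : ℝ), by positivity, ?_⟩
    rw [← Real.rpow_natCast, ← Real.rpow_mul hu0.le]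
    norm_num
  obtain ⟨b, hb, hNb⟩ : ∃ b : ℝ, 0 < b ∧ (N : ℝ) = b ^ 3 := by
    refine ⟨(N : ℝ) ^ (1 / 3 : ℝ), by positivity, ?_⟩
    rw [← Real.rpow_natCast, ← Real.rpow_mul hN0.le]
    norm_num
  have hu23 : u ^ (2 / 3 : ℝ) = a ^ 2 := by rw [hua, cube_rpow' ha.le]
  have hterm : ∀ m ∈ Icc 1 R, 84 * (m : ℝ) *
      (48 * μ * ((N : ℝ) ^ 2 / (R * m) + Λ)) ^ (4 / 3 : ℝ) ≤
      67200 * μ ^ (4 / 3 : ℝ) * (((N : ℝ) ^ 2 / R) ^ (4 / 3 : ℝ) * (m : ℝ) ^ (-(1 / 3) : ℝ) +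
        R * Λ ^ (4 / 3 : ℝ)) := by
    intro m hm
    rw [mem_Icc] at hm
    have hm1 : (1 : ℝ) ≤ m := by exact_mod_cast hm.1
    have hmR : (m : ℝ) ≤ R := by exact_mod_cast hm.2
    have hm0 : (0 : ℝ) < m := by linarith
    have e1 : (N : ℝ) ^ 2 / (R * m) = ((N : ℝ) ^ 2 / R) / m := by rw [div_div]
    have h1 : (48 * μ * ((N : ℝ) ^ 2 / (R * m) + Λ)) ^ (4 / 3 : ℝ) ≤
        (200 * μ ^ (4 / 3 : ℝ)) * (4 * ((((N : ℝ) ^ 2 / R) / m) ^ (4 / 3 : ℝ) +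
          Λ ^ (4 / 3 : ℝ))) := by
      rw [Real.mul_rpow (by positivity) (by positivity), Real.mul_rpow (by norm_num) hμ, e1]
      refine mul_le_mul (mul_le_mul_of_nonneg_right rpow48 (by positivity))
        (add_rpow (by positivity) hΛ) (by positivity) (by positivity)
    have e2 : (m : ℝ) * (((N : ℝ) ^ 2 / R) / m) ^ (4 / 3 : ℝ) =
        ((N : ℝ) ^ 2 / R) ^ (4 / 3 : ℝ) * (m : ℝ) ^ (-(1 / 3) : ℝ) := by
      rw [Real.div_rpow (by positivity) hm0.le]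
      have e3 : (m : ℝ) ^ (-(1 / 3) : ℝ) = m / (m : ℝ) ^ (4 / 3 : ℝ) := by
        rw [eq_div_iff (by positivity), ← Real.rpow_add hm0]
        norm_num
      rw [e3]; ring
    calc 84 * (m : ℝ) * (48 * μ * ((N : ℝ) ^ 2 / (R * m) + Λ)) ^ (4 / 3 : ℝ)
        ≤ 84 * (m : ℝ) * ((200 * μ ^ (4 / 3 : ℝ)) * (4 * ((((N : ℝ) ^ 2 / R) / m) ^ (4 / 3 : ℝ) +
          Λ ^ (4 / 3 : ℝ)))) := mul_le_mul_of_nonneg_left h1 (by positivity)
      _ = 67200 * μ ^ (4 / 3 : ℝ) * ((m : ℝ) * (((N : ℝ) ^ 2 / R) / m) ^ (4 / 3 : ℝ) +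
          m * Λ ^ (4 / 3 : ℝ)) := by ring
      _ ≤ 67200 * μ ^ (4 / 3 : ℝ) * (((N : ℝ) ^ 2 / R) ^ (4 / 3 : ℝ) * (m : ℝ) ^ (-(1 / 3) : ℝ) +
        R * Λ ^ (4 / 3 : ℝ)) := by
          rw [e2]
          refine mul_le_mul_of_nonneg_left ?_ (by positivity)
          have : 0 ≤ Λ ^ (4 / 3 : ℝ) := Real.rpow_nonneg hΛ _
          nlinarith
  refine (Finset.sum_le_sum hterm).trans ?_
  rw [← Finset.mul_sum, Finset.sum_add_distrib, ← Finset.mul_sum, Finset.sum_const, Nat.card_Icc,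
    nsmul_eq_mul]
  have h2 : ((N : ℝ) ^ 2 / R) ^ (4 / 3 : ℝ) * ∑ m ∈ Icc 1 R, (m : ℝ) ^ (-(1 / 3) : ℝ) ≤
      6 * ((N : ℝ) ^ 2 * a ^ 2) := by
    have h3 : (N : ℝ) ^ 2 / R ≤ 2 * (b * a) ^ 3 := by
      rw [div_le_iff₀ (by linarith)]
      have h4 : x * u = N := by rw [hx]; field_simp
      have h5 : x ≤ 2 * R := by linarith
      calc (N : ℝ) ^ 2 = N * (x * u) := by rw [h4]; ring
        _ ≤ N * ((2 * R) * u) := by
            refine mul_le_mul_of_nonneg_left (mul_le_mul_of_nonneg_right h5 hu0.le) hN0.le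
        _ = 2 * (b * a) ^ 3 * R := by rw [hua, hNb]; ring
    have h6 : ((N : ℝ) ^ 2 / R) ^ (4 / 3 : ℝ) ≤ 4 * (b * a) ^ 4 := by
      have h7 : (2 : ℝ) ^ (4 / 3 : ℝ) ≤ 4 := by
        calc (2 : ℝ) ^ (4 / 3 : ℝ) ≤ (2 : ℝ) ^ (2 : ℝ) :=
              Real.rpow_le_rpow_of_exponent_le (by norm_num) (by norm_num)
          _ = 4 := by norm_num
      refine (Real.rpow_le_rpow (by positivity) h3 (by norm_num)).trans ?_
      rw [Real.mul_rpow (by norm_num) (by positivity), cube_rpow (by positivity)]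
      exact mul_le_mul_of_nonneg_right h7 (by positivity)
    have h8 : (R : ℝ) ^ (2 / 3 : ℝ) ≤ (b / a) ^ 2 := by
      rw [← cube_rpow' (by positivity : 0 ≤ b / a)]
      refine Real.rpow_le_rpow (by linarith) ?_ (by norm_num)
      refine hRx.trans (le_of_eq ?_)
      rw [hx, hNb, hua, div_pow]
    have h9 := sum_rpow R
    calc ((N : ℝ) ^ 2 / R) ^ (4 / 3 : ℝ) * ∑ m ∈ Icc 1 R, (m : ℝ) ^ (-(1 / 3) : ℝ)
        ≤ (4 * (b * a) ^ 4) * ((3 / 2) * (b / a) ^ 2) := by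
          refine mul_le_mul h6 (h9.trans (by linarith)) (Finset.sum_nonneg fun m _ => by positivity)
            (by positivity)
      _ = 6 * ((N : ℝ) ^ 2 * a ^ 2) := by rw [hNb]; field_simp; ring
  have h3 : ((R + 1 - 1 : ℕ) : ℝ) * (R * Λ ^ (4 / 3 : ℝ)) ≤ (N : ℝ) ^ 2 * a ^ 2 := by
    have h4 : Λ ^ (4 / 3 : ℝ) ≤ (a ^ 2) ^ 4 := by
      rw [← cube_rpow (by positivity : 0 ≤ a ^ 2)]
      refine Real.rpow_le_rpow hΛ (hΛu.trans (le_of_eq ?_)) (by norm_num)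
      rw [hua]; ring
    have h5 : (R : ℝ) * R ≤ (b / a) ^ 3 * (b / a) ^ 3 := by
      have : (R : ℝ) ≤ (b / a) ^ 3 := by
        refine hRx.trans (le_of_eq ?_)
        rw [hx, hNb, hua, div_pow]
      exact mul_le_mul this this (by linarith) (by positivity)
    have e : ((R + 1 - 1 : ℕ) : ℝ) = R := by simp
    rw [e, ← mul_assoc]
    calc (R : ℝ) * R * Λ ^ (4 / 3 : ℝ) ≤ ((b / a) ^ 3 * (b / a) ^ 3) * (a ^ 2) ^ 4 :=
          mul_le_mul h5 h4 (Real.rpow_nonneg hΛ _) (by positivity)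
      _ = (N : ℝ) ^ 2 * a ^ 2 := by rw [hNb]; field_simp
  rw [hu23]
  have h0 : 0 ≤ μ ^ (4 / 3 : ℝ) := Real.rpow_nonneg hμ _
  have h4 := mul_le_mul_of_nonneg_left (add_le_add h2 h3)
    (by positivity : (0 : ℝ) ≤ 67200 * μ ^ (4 / 3 : ℝ))
  refine h4.trans (le_of_eq ?_)
  ring

variable {P : Finset (ℝ × ℝ)} {X : ℝ × ℝ → ℤ × ℤ} {N μ : ℕ} {δ : ℝ}

lemma cr_swap3 (p q x : ℝ × ℝ) : cr q.swap p.swap x.swap = cr p q x := by
  unfold cr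
  simp only [Prod.fst_swap, Prod.snd_swap]
  ring

lemma near_swap (h : Near P X N μ δ) :
    Near (P.image Prod.swap) (fun x => (X x.swap).swap) N μ δ := by
  classical
  refine ⟨?_, ?_, ?_, ?_⟩
  · intro p hp q hq x hx hpq hpx hqx
    obtain ⟨p', hp', rfl⟩ := mem_image.mp hp
    obtain ⟨q', hq', rfl⟩ := mem_image.mp hq
    obtain ⟨x', hx', rfl⟩ := mem_image.mp hx
    rw [cr_swap3]
    exact h.gen q' hq' p' hp' x' hx' (fun h => hpq (by rw [h])) (fun h => hqx (by rw [h]))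
      (fun h => hpx (by rw [h]))
  · intro x hx
    obtain ⟨x', hx', rfl⟩ := mem_image.mp hx
    obtain ⟨h1, h2, h3, h4⟩ := h.mem x' hx'
    simp only [Prod.swap_swap, Prod.fst_swap, Prod.snd_swap]
    exact ⟨h3, h4, h1, h2⟩
  · intro z
    refine le_trans (card_le_card_of_injOn Prod.swap ?_ (Prod.swap_injective.injOn)) (h.fib z.swap)
    intro x hx
    rw [mem_coe, mem_filter] at hx
    obtain ⟨x', hx', rfl⟩ := mem_image.mp hx.1
    rw [mem_coe, mem_filter]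
    have h2 := hx.2
    simp only [Prod.swap_swap] at h2 ⊢
    exact ⟨hx', by rw [← h2, Prod.swap_swap]⟩
  · intro x hx
    obtain ⟨x', hx', rfl⟩ := mem_image.mp hx
    simp only [Prod.swap_swap, Prod.fst_swap, Prod.snd_swap]
    exact ⟨(h.dis x' hx').2, (h.dis x' hx').1⟩

lemma E_le (k : ℕ) : #(E P k) ≤ #(E1 P k) + #(E1 (P.image Prod.swap) k) := by
  classical
  rw [← Finset.card_filter_add_card_filter_not (s := E P k)
    (fun e => |e.2.2 - e.1.2| ≤ |e.2.1 - e.1.1|)]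
  refine Nat.add_le_add (le_of_eq (by unfold E1; congr)) ?_
  refine card_le_card_of_injOn (fun e => (e.2.swap, e.1.swap)) ?_ ?_
  · intro e he
    rw [mem_coe, mem_filter, mem_E] at he
    obtain ⟨⟨h1, h2, h3, h4⟩, h5⟩ := he
    rw [mem_coe]
    unfold E1
    rw [mem_filter, mem_E]
    refine ⟨⟨mem_image_of_mem _ h2, mem_image_of_mem _ h1,
      fun h => h3 (Prod.swap_injective h).symm, ?_⟩, ?_⟩
    · rw [← h4, Finset.filter_image, Finset.card_image_of_injective _ Prod.swap_injective]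
      congr 1
      ext x
      simp only [mem_filter, cr_swap3]
    · simp only [Prod.fst_swap, Prod.snd_swap]
      push Not at h5
      rw [abs_sub_comm e.1.1, abs_sub_comm e.1.2]
      exact h5.le
  · intro e _ f _ h
    rw [Prod.mk.injEq] at h
    exact Prod.ext (Prod.swap_injective h.2) (Prod.swap_injective h.1)

lemma card_le (h : Near P X N μ δ) : #P ≤ N ^ 2 * μ := by
  classical
  have hsub : P ⊆ ((Icc (1 : ℤ) N) ×ˢ (Icc (1 : ℤ) N)).biUnion (fun z => {x ∈ P | X x = z}) := by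
    intro x hx
    rw [mem_biUnion]
    obtain ⟨h1, h2, h3, h4⟩ := h.mem x hx
    refine ⟨X x, ?_, ?_⟩
    · rw [mem_product, mem_Icc, mem_Icc]
      exact ⟨⟨h1, h2⟩, h3, h4⟩
    · rw [mem_filter]
      exact ⟨hx, rfl⟩
  refine (card_le_card hsub).trans (card_biUnion_le.trans ?_)
  refine (Finset.sum_le_card_nsmul _ _ μ (fun z _ => h.fib z)).trans ?_
  rw [card_product, Int.card_Icc, smul_eq_mul]
  apply Nat.mul_le_mul_right
  have : ((N : ℤ) + 1 - 1).toNat = N := by omega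
  rw [this, pow_two]

/-- **Main bound.** -/
theorem main (h : Near P X N μ δ) (hδ : 0 ≤ δ) (k : ℕ) :
    (#(E P k) : ℝ) ≤ 10 ^ 6 * (μ : ℝ) ^ (4 / 3 : ℝ) * (N : ℝ) ^ 2 * (1 + δ * N) ^ (1 / 3 : ℝ) := by
  classical
  have hμ : (0 : ℝ) ≤ μ := Nat.cast_nonneg _
  have hN0 : (0 : ℝ) ≤ N := Nat.cast_nonneg _
  have hΛ : 0 ≤ δ * N := by positivity
  set u := Real.sqrt (1 + δ * N) with hu
  have hu2 : u ^ 2 = 1 + δ * N := Real.sq_sqrt (by linarith)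
  have hu0 : 0 ≤ u := Real.sqrt_nonneg _
  have hu1 : 1 ≤ u := by rw [hu, Real.one_le_sqrt]; linarith
  have hpow : (1 + δ * N) ^ (1 / 3 : ℝ) = u ^ (2 / 3 : ℝ) := by
    rw [← hu2, ← Real.rpow_natCast, ← Real.rpow_mul hu0]
    norm_num
  rw [hpow]
  rcases le_or_gt u N with huN | huN
  · obtain ⟨R, hR1, hRN, hsum⟩ := numeric hμ hΛ hu1 (by rw [hu2]; linarith) huN
    have h1 := (E1_card h hδ k hR1 hRN).trans hsum
    have h2 := (E1_card (near_swap h) hδ k hR1 hRN).trans hsum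
    have h3 : (#(E P k) : ℝ) ≤ #(E1 P k) + #(E1 (P.image Prod.swap) k) := by
      exact_mod_cast E_le k
    have h4 : 0 ≤ (μ : ℝ) ^ (4 / 3 : ℝ) * ((N : ℝ) ^ 2 * u ^ (2 / 3 : ℝ)) := by positivity
    calc (#(E P k) : ℝ) ≤ 940800 * ((μ : ℝ) ^ (4 / 3 : ℝ) * ((N : ℝ) ^ 2 * u ^ (2 / 3 : ℝ))) := by
          linarith
      _ ≤ 10 ^ 6 * ((μ : ℝ) ^ (4 / 3 : ℝ) * ((N : ℝ) ^ 2 * u ^ (2 / 3 : ℝ))) := by nlinarith
      _ = _ := by ring
  · have h1 := E_card h.gen k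
    have h2 : (#P : ℝ) ≤ (N : ℝ) ^ 2 * μ := by exact_mod_cast card_le h
    have h3 : (#P : ℝ) ^ (4 / 3 : ℝ) ≤ (μ : ℝ) ^ (4 / 3 : ℝ) * ((N : ℝ) ^ 2 * u ^ (2 / 3 : ℝ)) := by
      refine (Real.rpow_le_rpow (Nat.cast_nonneg _) h2 (by norm_num)).trans ?_
      rw [Real.mul_rpow (by positivity) hμ, mul_comm]
      refine mul_le_mul_of_nonneg_left ?_ (by positivity)
      have e1 : ((N : ℝ) ^ 2) ^ (4 / 3 : ℝ) = (N : ℝ) ^ 2 * (N : ℝ) ^ (2 / 3 : ℝ) := by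
        rcases hN0.eq_or_lt with h0 | h0
        · rw [← h0]; norm_num
        · rw [← Real.rpow_natCast, ← Real.rpow_mul h0.le, ← Real.rpow_add h0]
          norm_num
      rw [e1]
      refine mul_le_mul_of_nonneg_left ?_ (by positivity)
      exact Real.rpow_le_rpow hN0 huN.le (by norm_num)
    have h4 : 0 ≤ (μ : ℝ) ^ (4 / 3 : ℝ) * ((N : ℝ) ^ 2 * u ^ (2 / 3 : ℝ)) := by positivity
    calc (#(E P k) : ℝ) ≤ 14 * ((μ : ℝ) ^ (4 / 3 : ℝ) * ((N : ℝ) ^ 2 * u ^ (2 / 3 : ℝ))) := by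
          linarith
      _ ≤ 10 ^ 6 * ((μ : ℝ) ^ (4 / 3 : ℝ) * ((N : ℝ) ^ 2 * u ^ (2 / 3 : ℝ))) := by nlinarith
      _ = _ := by ring

end Pool.Agent.L7h70.HP
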