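import Pool.Agent.L7h70.HP.Win
import Pool.Agent.W250.RS.Stg

/-!
# Perturbations of sets with small doubling: the classes of directions
-/

set_option autoImplicit false

namespace Pool.Agent.L7h70.HP

open Finset Pool.Agent.W296.HL

/-- Edges whose two sides are given by the level outside the level of the edge lie on one level. -/
theorem one_level {P : Finset (ℝ × ℝ)} (hP : Gen P) {k T : ℕ} (lev : ℝ × ℝ → ℝ)
    (S : Finset ((ℝ × ℝ) × (ℝ × ℝ))) (hS : S ⊆ E P k)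
    (hL : ∀ e ∈ S, ∀ x ∈ P, lev e.1 < lev x → 0 < cr e.1 e.2 x)
    (hR : ∀ e ∈ S, ∀ x ∈ P, lev x < lev e.1 → cr e.1 e.2 x < 0)
    (hT : ∀ c, #{x ∈ P | lev x = c} ≤ T) : (#S : ℝ) ≤ 14 * (T : ℝ) ^ (4 / 3 : ℝ) := by
  classical
  set rk : ℝ × ℝ → ℤ := fun x => #{y ∈ P | lev y < lev x} with hrk
  have hrlt : ∀ x ∈ P, ∀ y : ℝ × ℝ, lev x < lev y → rk x < rk y := by
    intro x hx y hxy
    rw [hrk]
    simp only [Nat.cast_lt]
    apply card_lt_card
    rw [Finset.ssubset_iff_of_subset]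
    · refine ⟨x, ?_, ?_⟩
      · rw [mem_filter]; exact ⟨hx, hxy⟩
      · rw [mem_filter]
        rintro ⟨-, h⟩
        exact lt_irrefl _ h
    · intro z hz
      rw [mem_filter] at hz ⊢
      exact ⟨hz.1, hz.2.trans hxy⟩
  obtain ⟨i, k', hsub⟩ := window (k := k) rk (w := 1) le_rfl S hS
    (by
      intro e he x hx h
      apply hL e he x hx
      by_contra hc
      push Not at hc
      rcases hc.eq_or_lt with h0 | h0
      · have : rk x = rk e.1 := by rw [hrk]; simp only [h0]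
        omega
      · have := hrlt x hx e.1 h0
        omega)
    (by
      intro e he x hx h
      apply hR e he x hx
      by_contra hc
      push Not at hc
      rcases hc.eq_or_lt with h0 | h0
      · have : rk x = rk e.1 := by rw [hrk]; simp only [h0]
        omega
      · have := hrlt e.1 (mem_E.mp (hS he)).1 x h0
        omega)
  set A := P.filter (fun x => i - 1 + 1 ≤ rk x ∧ rk x ≤ i + 3 * 1 - 3) with hA
  have hAgen : Gen A := fun p hp q hq x hx =>
    hP p (mem_of_mem_filter _ hp) q (mem_of_mem_filter _ hq) x (mem_of_mem_filter _ hx)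
  have h1 : (#S : ℝ) ≤ 14 * (#A : ℝ) ^ (4 / 3 : ℝ) :=
    (by exact_mod_cast card_le_card hsub : (#S : ℝ) ≤ #(E A k')).trans (E_card hAgen k')
  have h2 : #A ≤ T := by
    rcases A.eq_empty_or_nonempty with h0 | ⟨x₀, hx₀⟩
    · rw [h0]; simp
    · refine (card_le_card ?_).trans (hT (lev x₀))
      intro x hx
      rw [hA, mem_filter] at hx hx₀
      rw [mem_filter]
      refine ⟨hx.1, ?_⟩
      rcases lt_trichotomy (lev x) (lev x₀) with h | h | h
      · have := hrlt x hx.1 x₀ h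
        omega
      · exact h
      · have := hrlt x₀ hx₀.1 x h
        omega
  refine h1.trans (mul_le_mul_of_nonneg_left ?_ (by norm_num))
  exact Real.rpow_le_rpow (Nat.cast_nonneg _) (by exact_mod_cast h2) (by norm_num)

/-- `P` is a perturbation of a subset of `Q`: `q` is injective on `P` and the orientation of three
points of `P` is that of their images, if the images are not collinear -/
structure Pert (P Q : Finset (ℝ × ℝ)) (q : ℝ × ℝ → ℝ × ℝ) : Prop where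
  gen : Gen P
  mem : ∀ x ∈ P, q x ∈ Q
  inj : Set.InjOn q P
  ori : ∀ x ∈ P, ∀ y ∈ P, ∀ z ∈ P, 0 < cr (q x) (q y) (q z) → 0 < cr x y z

variable {P Q : Finset (ℝ × ℝ)} {q : ℝ × ℝ → ℝ × ℝ}

lemma Pert.neg (h : Pert P Q q) {x y z : ℝ × ℝ} (hx : x ∈ P) (hy : y ∈ P) (hz : z ∈ P)
    (h0 : cr (q x) (q y) (q z) < 0) : cr x y z < 0 := by
  have h1 := h.ori y hy x hx z hz (by rw [cr_swap (q x) (q y)]; linarith)
  rw [cr_swap x y z] at h1
  linarith

lemma Pert.card_fib (h : Pert P Q q) (f g : ℝ × ℝ → ℝ) {T : ℕ}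
    (hfg : ∀ c, ∃ c', ∀ x ∈ P, g x = c → f (q x) = c') (hT : ∀ c, #{y ∈ Q | f y = c} ≤ T)
    (c : ℝ) : #{x ∈ P | g x = c} ≤ T := by
  classical
  obtain ⟨c', hc'⟩ := hfg c
  refine le_trans (card_le_card_of_injOn q ?_ ?_) (hT c')
  · intro x hx
    rw [mem_coe, mem_filter] at hx
    rw [mem_coe, mem_filter]
    exact ⟨h.mem x hx.1, hc' x hx.1 hx.2⟩
  · exact h.inj.mono (fun x hx => (mem_filter.mp (mem_coe.mp hx)).1)

/-- intercept of the line of slope `σ` through `x` -/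
def ic (σ : ℝ) (x : ℝ × ℝ) : ℝ := x.2 - σ * x.1

open scoped Classical in
/-- the edges whose image has slope `σ` and is directed to the right (`s = 1`) or to the left -/
noncomputable def Cσ (P : Finset (ℝ × ℝ)) (q : ℝ × ℝ → ℝ × ℝ) (k : ℕ) (σ s : ℝ) :
    Finset ((ℝ × ℝ) × (ℝ × ℝ)) :=
  (E P k).filter (fun e => 0 < s * ((q e.2).1 - (q e.1).1) ∧
    (q e.2).2 - (q e.1).2 = σ * ((q e.2).1 - (q e.1).1))

lemma Cσ_card (h : Pert P Q q) (k : ℕ) {T : ℕ} {σ s : ℝ} (hs : s = 1 ∨ s = -1)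
    (hT : ∀ c, #{y ∈ Q | ic σ y = c} ≤ T) :
    (#(Cσ P q k σ s) : ℝ) ≤ 14 * (T : ℝ) ^ (4 / 3 : ℝ) := by
  classical
  have hs2 : s * s = 1 := by rcases hs with rfl | rfl <;> norm_num
  have hcr : ∀ e ∈ Cσ P q k σ s, ∀ x : ℝ × ℝ, cr (q e.1) (q e.2) (q x) =
      (s * ((q e.2).1 - (q e.1).1)) * (s * ic σ (q x) - s * ic σ (q e.1)) := by
    intro e he x
    unfold Cσ at he
    rw [mem_filter] at he
    unfold cr ic
    rw [he.2.2]
    linear_combination ((q e.2).1 - (q e.1).1) * ((q x).2 - σ * (q x).1 -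
      ((q e.1).2 - σ * (q e.1).1)) * (-hs2)
  refine one_level h.gen (fun x => s * ic σ (q x)) (Cσ P q k σ s)
    (by unfold Cσ; exact filter_subset _ _) ?_ ?_ ?_
  · intro e he x hx hlt
    have he' := he
    unfold Cσ at he'
    rw [mem_filter] at he'
    have hE := mem_E.mp he'.1
    have hp := he'.2.1
    apply h.ori _ hE.1 _ hE.2.1 _ hx
    rw [hcr e he x]
    exact mul_pos hp (by linarith)
  · intro e he x hx hlt
    have he' := he
    unfold Cσ at he'
    rw [mem_filter] at he'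
    have hE := mem_E.mp he'.1
    have hp := he'.2.1
    apply h.neg hE.1 hE.2.1 hx
    rw [hcr e he x]
    exact mul_neg_of_pos_of_neg hp (by linarith)
  · intro c
    refine h.card_fib (ic σ) _ ?_ hT c
    intro c
    refine ⟨s * c, fun x _ hx => ?_⟩
    rw [← hx, ← mul_assoc, hs2, one_mul]

open scoped Classical in
/-- the edges whose image is vertical -/
noncomputable def Cv (P : Finset (ℝ × ℝ)) (q : ℝ × ℝ → ℝ × ℝ) (k : ℕ) (s : ℝ) :
    Finset ((ℝ × ℝ) × (ℝ × ℝ)) :=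
  (E P k).filter (fun e => 0 < s * ((q e.2).2 - (q e.1).2) ∧ (q e.2).1 - (q e.1).1 = 0)

lemma Cv_card (h : Pert P Q q) (k : ℕ) {T : ℕ} {s : ℝ} (hs : s = 1 ∨ s = -1)
    (hT : ∀ c, #{y ∈ Q | y.1 = c} ≤ T) :
    (#(Cv P q k s) : ℝ) ≤ 14 * (T : ℝ) ^ (4 / 3 : ℝ) := by
  classical
  have hs2 : s * s = 1 := by rcases hs with rfl | rfl <;> norm_num
  have hcr : ∀ e ∈ Cv P q k s, ∀ x : ℝ × ℝ, cr (q e.1) (q e.2) (q x) =
      (s * ((q e.2).2 - (q e.1).2)) * (-s * (q x).1 - -s * (q e.1).1) := by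
    intro e he x
    unfold Cv at he
    rw [mem_filter] at he
    unfold cr
    rw [he.2.2]
    linear_combination ((q e.2).2 - (q e.1).2) * ((q x).1 - (q e.1).1) * hs2
  refine one_level h.gen (fun x => -s * (q x).1) (Cv P q k s)
    (by unfold Cv; exact filter_subset _ _) ?_ ?_ ?_
  · intro e he x hx hlt
    have he' := he
    unfold Cv at he'
    rw [mem_filter] at he'
    have hE := mem_E.mp he'.1
    have hp := he'.2.1
    apply h.ori _ hE.1 _ hE.2.1 _ hx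
    rw [hcr e he x]
    exact mul_pos hp (by linarith)
  · intro e he x hx hlt
    have he' := he
    unfold Cv at he'
    rw [mem_filter] at he'
    have hE := mem_E.mp he'.1
    have hp := he'.2.1
    apply h.neg hE.1 hE.2.1 hx
    rw [hcr e he x]
    exact mul_neg_of_pos_of_neg hp (by linarith)
  · intro c
    refine h.card_fib (fun y => y.1) _ ?_ hT c
    intro c
    refine ⟨-s * c, fun x _ hx => ?_⟩
    rw [← hx]
    linear_combination (- (q x).1) * hs2

/-- the largest number of points of `Q` on a line of slope `σ` -/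
noncomputable def Tm (Q : Finset (ℝ × ℝ)) (σ : ℝ) : ℕ :=
  (Q.image (ic σ)).sup (fun c => #{y ∈ Q | ic σ y = c})

lemma le_Tm (Q : Finset (ℝ × ℝ)) (σ c : ℝ) : #{y ∈ Q | ic σ y = c} ≤ Tm Q σ := by
  classical
  by_cases hc : c ∈ Q.image (ic σ)
  · exact Finset.le_sup (f := fun c => #{y ∈ Q | ic σ y = c}) hc
  · have : Q.filter (fun y => ic σ y = c) = ∅ := by
      rw [Finset.filter_eq_empty_iff]
      intro y hy h
      exact hc (mem_image.mpr ⟨y, hy, h⟩)
    rw [this]; simp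

lemma exists_Tm {Q : Finset (ℝ × ℝ)} (hQ : Q.Nonempty) (σ : ℝ) :
    ∃ c, #{y ∈ Q | ic σ y = c} = Tm Q σ := by
  classical
  obtain ⟨c, -, hc⟩ := Finset.exists_mem_eq_sup (Q.image (ic σ)) (hQ.image _)
    (fun c => #{y ∈ Q | ic σ y = c})
  exact ⟨c, hc.symm⟩

lemma card_le_Tm (Q : Finset (ℝ × ℝ)) (σ : ℝ) : #Q ≤ Tm Q σ * #(Q.image (ic σ)) := by
  classical
  exact Finset.card_le_mul_card_image _ _ (fun c _ => le_Tm Q σ c)

open scoped Pointwise in
/-- the translates of a rich line of direction `σ` -/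
lemma lines_of_slope {Q B : Finset (ℝ × ℝ)} (hQ : Q.Nonempty) (hQB : #Q ≤ #B) (σ : ℝ) :
    ∃ I : Finset ℝ, #Q ≤ Tm Q σ * #I ∧ ∀ c ∈ I, Tm Q σ ≤ #{v ∈ Q + B | v.2 = σ * v.1 + c} := by
  classical
  have hB : B.Nonempty := by
    rw [← card_pos] at hQ ⊢
    omega
  have key : ∀ (c₀ : ℝ) (X Y : Finset (ℝ × ℝ)), X + Y = Q + B → Tm Q σ ≤ #{y ∈ X | ic σ y = c₀} →
      ∀ c ∈ (Y.image (ic σ)).image (fun t => c₀ + t), Tm Q σ ≤ #{v ∈ Q + B | v.2 = σ * v.1 + c} := by
    intro c₀ X Y hXY h c hc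
    rw [mem_image] at hc
    obtain ⟨t, ht, rfl⟩ := hc
    rw [mem_image] at ht
    obtain ⟨b, hb, rfl⟩ := ht
    refine h.trans (card_le_card_of_injOn (fun y => y + b) ?_ ?_)
    · intro y hy
      rw [mem_coe, mem_filter] at hy
      rw [mem_coe, mem_filter, ← hXY]
      refine ⟨add_mem_add hy.1 hb, ?_⟩
      have h1 := hy.2
      unfold ic at h1 ⊢
      simp only [Prod.fst_add, Prod.snd_add]
      linarith
    · intro y _ z _ hyz
      exact add_right_cancel hyz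
  have hinj : ∀ (c₀ : ℝ) (I : Finset ℝ), #(I.image (fun t => c₀ + t)) = #I := fun c₀ I =>
    Finset.card_image_of_injective _ (add_right_injective c₀)
  rcases le_or_gt (Tm Q σ) (Tm B σ) with h | h
  · obtain ⟨c₀, hc₀⟩ := exists_Tm hB σ
    refine ⟨(Q.image (ic σ)).image (fun t => c₀ + t), ?_, ?_⟩
    · rw [hinj]; exact card_le_Tm Q σ
    · exact key c₀ B Q (add_comm _ _) (by rw [hc₀]; exact h)
  · obtain ⟨c₀, hc₀⟩ := exists_Tm hQ σ
    refine ⟨(B.image (ic σ)).image (fun t => c₀ + t), ?_, ?_⟩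
    · rw [hinj]
      exact hQB.trans ((card_le_Tm B σ).trans (Nat.mul_le_mul_right _ h.le))
    · exact key c₀ Q B rfl hc₀.ge

open scoped Pointwise in
/-- **Few directions with rich lines.** -/
lemma few_slopes {Q B : Finset (ℝ × ℝ)} (hQ : Q.Nonempty) (hQB : #Q ≤ #B) (Ss : Finset ℝ)
    (h0 : ∀ σ ∈ Ss, σ ≠ 0) {t : ℕ} (ht : 2 ≤ t) (h1 : ∀ σ ∈ Ss, t ≤ Tm Q σ)
    (h2 : ∀ σ ∈ Ss, Tm Q σ ≤ 2 * t) :
    t ^ 2 * (#Q * #Ss) ≤ 1152 * (#(Q + B) ^ 2 + t ^ 2 * #(Q + B)) := by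
  classical
  have hex : ∀ σ : ℝ, ∃ I : Finset ℝ, #Q ≤ Tm Q σ * #I ∧
      ∀ c ∈ I, Tm Q σ ≤ #{v ∈ Q + B | v.2 = σ * v.1 + c} := fun σ => lines_of_slope hQ hQB σ
  choose I hI1 hI2 using hex
  set Ls : Finset (ℝ × ℝ) := Ss.biUnion (fun σ => (I σ).image (fun c => (σ, c))) with hLs
  have hcard : #Ls = ∑ σ ∈ Ss, #(I σ) := by
    rw [hLs, Finset.card_biUnion]
    · refine Finset.sum_congr rfl fun σ _ => ?_
      exact Finset.card_image_of_injective _ (fun a b h => (Prod.mk.injEq _ _ _ _ ▸ h).2)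
    · intro σ _ τ _ hne
      rw [Function.onFun, Finset.disjoint_left]
      intro x hx hy
      rw [mem_image] at hx hy
      obtain ⟨a, -, rfl⟩ := hx
      obtain ⟨b, -, hb⟩ := hy
      rw [Prod.mk.injEq] at hb
      exact hne hb.1.symm
  have hst := Pool.Agent.W250.RS.stg (Q + B) Ls t ht
    (by
      intro l hl
      rw [hLs, mem_biUnion] at hl
      obtain ⟨σ, hσ, hl⟩ := hl
      rw [mem_image] at hl
      obtain ⟨c, -, rfl⟩ := hl
      exact h0 σ hσ)
    (by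
      intro l hl
      rw [hLs, mem_biUnion] at hl
      obtain ⟨σ, hσ, hl⟩ := hl
      rw [mem_image] at hl
      obtain ⟨c, hc, rfl⟩ := hl
      exact (h1 σ hσ).trans (hI2 σ c hc))
  have h3 : #Q * #Ss ≤ 2 * t * #Ls := by
    rw [hcard, Finset.mul_sum, mul_comm, ← smul_eq_mul, ← Finset.sum_const]
    exact Finset.sum_le_sum fun σ hσ => (hI1 σ).trans (Nat.mul_le_mul_right _ (h2 σ hσ))
  calc t ^ 2 * (#Q * #Ss) ≤ t ^ 2 * (2 * t * #Ls) := Nat.mul_le_mul_left _ h3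
    _ = 2 * (t ^ 3 * #Ls) := by ring
    _ ≤ 2 * (576 * (#(Q + B) ^ 2 + t ^ 2 * #(Q + B))) := Nat.mul_le_mul_left _ hst
    _ = _ := by ring

end Pool.Agent.L7h70.HP
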