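import Pool.Agent.L7h70.HP.SD1

/-!
# Perturbations of sets with small doubling: summation over the directions
-/

set_option autoImplicit false

namespace Pool.Agent.L7h70.HP

open Finset Pool.Agent.W296.HL
open scoped Pointwise

/-- `2 ^ (4 / 3)` -/
noncomputable def ρ₀ : ℝ := (2 : ℝ) ^ (4 / 3 : ℝ)

lemma ρ₀_cube : ρ₀ ^ 3 = 16 := by
  unfold ρ₀
  rw [← Real.rpow_natCast, ← Real.rpow_mul (by norm_num)]
  norm_num

lemma ρ₀_pos : 0 < ρ₀ := by unfold ρ₀; positivity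

lemma two_le_ρ₀ : 2 ≤ ρ₀ := by
  by_contra h
  push Not at h
  have h0 := ρ₀_pos
  have h1 := ρ₀_cube
  have h2 : ρ₀ ^ 3 < 2 ^ 3 := pow_lt_pow_left₀ h h0.le (by norm_num)
  norm_num at h2
  linarith

lemma ρ₀_le : ρ₀ ≤ 8 / 3 := by
  by_contra h
  push Not at h
  have h1 := ρ₀_cube
  have h2 : (8 / 3 : ℝ) ^ 3 < ρ₀ ^ 3 := pow_lt_pow_left₀ h (by norm_num) (by norm_num)
  norm_num at h2
  linarith

lemma pow_ρ₀ (j : ℕ) : ((2 : ℝ) ^ j) ^ (4 / 3 : ℝ) = ρ₀ ^ j := by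
  unfold ρ₀
  rw [← Real.rpow_natCast, ← Real.rpow_mul (by norm_num), ← Real.rpow_natCast,
    ← Real.rpow_mul (by norm_num), mul_comm]

lemma sum_geom1 (J : ℕ) : ∑ j ∈ Icc 1 J, ρ₀ ^ j / 4 ^ j ≤ 2 := by
  have h : ∀ J : ℕ, ∑ j ∈ Icc 1 J, ρ₀ ^ j / 4 ^ j ≤ 2 - 2 * (2 / 3 : ℝ) ^ J := by
    intro J
    induction J with
    | zero => simp
    | succ J ih =>
      rw [Finset.sum_Icc_succ_top (by omega)]
      have h1 : ρ₀ ^ (J + 1) / 4 ^ (J + 1) ≤ (2 / 3 : ℝ) ^ (J + 1) := by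
        rw [← div_pow]
        refine pow_le_pow_left₀ (by have := ρ₀_pos; positivity) ?_ _
        have := ρ₀_le
        linarith
      have h2 : (2 / 3 : ℝ) ^ (J + 1) = (2 / 3) * (2 / 3) ^ J := by rw [pow_succ]; ring
      rw [h2] at h1 ⊢
      linarith
  have h1 : (0 : ℝ) ≤ (2 / 3 : ℝ) ^ J := by positivity
  linarith [h J]

lemma sum_geom2 (J : ℕ) : ∑ j ∈ Icc 1 J, ρ₀ ^ j ≤ 2 * ρ₀ ^ J := by
  induction J with
  | zero => simp
  | succ J ih =>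
    rw [Finset.sum_Icc_succ_top (by omega)]
    have h1 : ρ₀ ^ (J + 1) = ρ₀ * ρ₀ ^ J := by rw [pow_succ]; ring
    have h2 : (0 : ℝ) < ρ₀ ^ J := pow_pos ρ₀_pos _
    have h3 := two_le_ρ₀
    rw [h1]
    nlinarith

/-- the sum over the directions -/
lemma slopes_sum {Q B : Finset (ℝ × ℝ)} (hQ : Q.Nonempty) (hQB : #Q ≤ #B) {K : ℝ}
    (hK : (#(Q + B) : ℝ) ≤ K * #Q) {m : ℕ} (Ss : Finset ℝ) (h0 : ∀ σ ∈ Ss, σ ≠ 0)
    (h1 : ∀ σ ∈ Ss, 2 ≤ Tm Q σ) (h2 : ∀ σ ∈ Ss, Tm Q σ ≤ m) :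
    ∑ σ ∈ Ss, (Tm Q σ : ℝ) ^ (4 / 3 : ℝ) ≤
      6912 * (K ^ 2 * #Q + K * (m : ℝ) ^ (4 / 3 : ℝ)) := by
  classical
  have hn : (0 : ℝ) < #Q := by exact_mod_cast hQ.card_pos
  have hK0 : 0 ≤ K := by
    by_contra hc
    push Not at hc
    have h3 : (0 : ℝ) ≤ #(Q + B) := Nat.cast_nonneg _
    nlinarith
  have hsplit : ∑ σ ∈ Ss, (Tm Q σ : ℝ) ^ (4 / 3 : ℝ) =
      ∑ j ∈ Icc 1 (Nat.log 2 m), ∑ σ ∈ Ss with Nat.log 2 (Tm Q σ) = j,
        (Tm Q σ : ℝ) ^ (4 / 3 : ℝ) := by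
    rw [Finset.sum_fiberwise_of_maps_to]
    intro σ hσ
    rw [mem_Icc]
    exact ⟨Nat.log_pos (by norm_num) (h1 σ hσ), Nat.log_mono_right (h2 σ hσ)⟩
  rw [hsplit]
  have hterm : ∀ j ∈ Icc 1 (Nat.log 2 m), ∑ σ ∈ Ss with Nat.log 2 (Tm Q σ) = j,
      (Tm Q σ : ℝ) ^ (4 / 3 : ℝ) ≤ 3456 * (K ^ 2 * #Q * (ρ₀ ^ j / 4 ^ j) + K * ρ₀ ^ j) := by
    intro j hj
    rw [mem_Icc] at hj
    set S := Ss.filter (fun σ => Nat.log 2 (Tm Q σ) = j) with hS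
    have hlo : ∀ σ ∈ S, 2 ^ j ≤ Tm Q σ := by
      intro σ hσ
      rw [hS, mem_filter] at hσ
      rw [← hσ.2]
      exact Nat.pow_log_le_self 2 (by have := h1 σ hσ.1; omega)
    have hhi : ∀ σ ∈ S, Tm Q σ ≤ 2 * 2 ^ j := by
      intro σ hσ
      rw [hS, mem_filter] at hσ
      have h3 := Nat.lt_pow_succ_log_self (b := 2) (by norm_num) (Tm Q σ)
      rw [hσ.2, Nat.succ_eq_add_one, pow_succ] at h3
      omega
    have h2j : 2 ≤ 2 ^ j := by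
      calc 2 = 2 ^ 1 := by norm_num
        _ ≤ 2 ^ j := Nat.pow_le_pow_right (by norm_num) hj.1
    have hfew := few_slopes hQ hQB S (fun σ hσ => h0 σ (mem_of_mem_filter _ hσ)) h2j hlo hhi
    have hfew' : ((2 : ℝ) ^ j) ^ 2 * (#Q * #S) ≤
        1152 * ((#(Q + B) : ℝ) ^ 2 + ((2 : ℝ) ^ j) ^ 2 * #(Q + B)) := by exact_mod_cast hfew
    have h4j : ((2 : ℝ) ^ j) ^ 2 = 4 ^ j := by
      rw [← pow_mul, mul_comm, pow_mul]; norm_num
    rw [h4j] at hfew'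
    have h4pos : (0 : ℝ) < 4 ^ j := by positivity
    have hS' : (#S : ℝ) ≤ 1152 * (K ^ 2 * #Q / 4 ^ j + K) := by
      have hM0 : (0 : ℝ) ≤ #(Q + B) := Nat.cast_nonneg _
      have h5 : (#(Q + B) : ℝ) ^ 2 ≤ (K * #Q) ^ 2 := pow_le_pow_left₀ hM0 hK 2
      have h6 : (4 : ℝ) ^ j * (#Q * #S) ≤ 1152 * ((K * #Q) ^ 2 + 4 ^ j * (K * #Q)) := by
        refine hfew'.trans (mul_le_mul_of_nonneg_left ?_ (by norm_num))
        exact add_le_add h5 (mul_le_mul_of_nonneg_left hK h4pos.le)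
      have h7 : (4 ^ j * #Q : ℝ) * #S ≤ (4 ^ j * #Q) * (1152 * (K ^ 2 * #Q / 4 ^ j + K)) := by
        calc (4 ^ j * #Q : ℝ) * #S = 4 ^ j * (#Q * #S) := by ring
          _ ≤ 1152 * ((K * #Q) ^ 2 + 4 ^ j * (K * #Q)) := h6
          _ = (4 ^ j * #Q) * (1152 * (K ^ 2 * #Q / 4 ^ j + K)) := by field_simp
      exact le_of_mul_le_mul_left h7 (by positivity)
    have h8 : ∀ σ ∈ S, (Tm Q σ : ℝ) ^ (4 / 3 : ℝ) ≤ 3 * ρ₀ ^ j := by
      intro σ hσ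
      have h9 : (Tm Q σ : ℝ) ≤ 2 * 2 ^ j := by exact_mod_cast hhi σ hσ
      refine (Real.rpow_le_rpow (Nat.cast_nonneg _) h9 (by norm_num)).trans ?_
      rw [Real.mul_rpow (by norm_num) (by positivity), pow_ρ₀]
      have h10 : (2 : ℝ) ^ (4 / 3 : ℝ) ≤ 3 := by
        have := ρ₀_le
        unfold ρ₀ at this
        linarith
      exact mul_le_mul_of_nonneg_right h10 (pow_pos ρ₀_pos _).le
    refine (Finset.sum_le_card_nsmul _ _ _ h8).trans ?_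
    rw [nsmul_eq_mul]
    have hρ := pow_pos ρ₀_pos j
    calc (#S : ℝ) * (3 * ρ₀ ^ j) ≤ (1152 * (K ^ 2 * #Q / 4 ^ j + K)) * (3 * ρ₀ ^ j) :=
          mul_le_mul_of_nonneg_right hS' (by positivity)
      _ = 3456 * (K ^ 2 * #Q * (ρ₀ ^ j / 4 ^ j) + K * ρ₀ ^ j) := by ring
  refine (Finset.sum_le_sum hterm).trans ?_
  rw [← Finset.mul_sum, Finset.sum_add_distrib, ← Finset.mul_sum, ← Finset.mul_sum]
  have h3 := sum_geom1 (Nat.log 2 m)
  have h4 := sum_geom2 (Nat.log 2 m)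
  rcases Nat.eq_zero_or_pos m with hm | hm
  · subst hm
    have h5 : Icc 1 (Nat.log 2 0) = ∅ := by simp
    rw [h5]
    simp only [sum_empty]
    have : (0 : ℝ) ≤ ((0 : ℕ) : ℝ) ^ (4 / 3 : ℝ) := Real.rpow_nonneg (by simp) _
    have : 0 ≤ K ^ 2 * #Q + K * ((0 : ℕ) : ℝ) ^ (4 / 3 : ℝ) := by positivity
    linarith
  · have h5 : ρ₀ ^ (Nat.log 2 m) ≤ (m : ℝ) ^ (4 / 3 : ℝ) := by
      rw [← pow_ρ₀]
      refine Real.rpow_le_rpow (by positivity) ?_ (by norm_num)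
      exact_mod_cast Nat.pow_log_le_self 2 (by omega)
    have h6 : K ^ 2 * #Q * ∑ j ∈ Icc 1 (Nat.log 2 m), ρ₀ ^ j / 4 ^ j ≤ K ^ 2 * #Q * 2 :=
      mul_le_mul_of_nonneg_left h3 (by positivity)
    have h7 : K * ∑ j ∈ Icc 1 (Nat.log 2 m), ρ₀ ^ j ≤ K * (2 * (m : ℝ) ^ (4 / 3 : ℝ)) :=
      mul_le_mul_of_nonneg_left (by linarith) hK0
    linarith

variable {P Q B : Finset (ℝ × ℝ)} {q : ℝ × ℝ → ℝ × ℝ}

open scoped Classical in
/-- the slopes of the lines through two points of `Q` with different abscissae -/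
noncomputable def slp (Q : Finset (ℝ × ℝ)) : Finset ℝ :=
  ((Q ×ˢ Q).filter (fun z => z.1.1 ≠ z.2.1)).image (fun z => (z.2.2 - z.1.2) / (z.2.1 - z.1.1))

lemma two_le_Tm {σ : ℝ} (h : σ ∈ slp Q) : 2 ≤ Tm Q σ := by
  classical
  unfold slp at h
  rw [mem_image] at h
  obtain ⟨⟨x, y⟩, h1, h2⟩ := h
  rw [mem_filter, mem_product] at h1
  obtain ⟨⟨hx, hy⟩, hne⟩ := h1
  simp only at hne h2 hx hy
  have h3 : ic σ y = ic σ x := by
    have h0 : y.1 - x.1 ≠ 0 := sub_ne_zero.mpr (Ne.symm hne)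
    rw [div_eq_iff h0] at h2
    unfold ic
    linarith
  refine le_trans ?_ (le_Tm Q σ (ic σ x))
  have h4 : ({x, y} : Finset (ℝ × ℝ)) ⊆ {z ∈ Q | ic σ z = ic σ x} := by
    intro z hz
    rw [mem_insert, mem_singleton] at hz
    rw [mem_filter]
    rcases hz with rfl | rfl
    · exact ⟨hx, rfl⟩
    · exact ⟨hy, h3⟩
  have h5 := card_le_card h4
  rw [card_pair (fun h => hne (by rw [h]))] at h5
  exact h5

/-- **Main bound.** -/
theorem main_sd (h : Pert P Q q) (hQ : Q.Nonempty) (hQB : #Q ≤ #B) {K : ℝ} (hK : (#(Q + B) : ℝ) ≤ K * #Q) {m : ℕ}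
    (hm : ∀ a b c : ℝ, (a ≠ 0 ∨ b ≠ 0) → #{x ∈ Q | a * x.1 + b * x.2 = c} ≤ m) (k : ℕ) :
    (#(E P k) : ℝ) ≤ 2 * 10 ^ 5 * (K ^ 2 * #Q + K * (m : ℝ) ^ (4 / 3 : ℝ)) := by
  classical
  have hn : (0 : ℝ) < #Q := by exact_mod_cast hQ.card_pos
  have hBn : B.Nonempty := by
    rw [← card_pos]
    have := hQ.card_pos
    omega
  have hK1 : 1 ≤ K := by
    have h1 : #Q ≤ #(Q + B) := hQB.trans (Finset.card_le_card_add_left hQ)
    have h2 : (#Q : ℝ) ≤ #(Q + B) := by exact_mod_cast h1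
    by_contra hc
    push Not at hc
    nlinarith
  have hTm : ∀ σ : ℝ, ∀ c, #{y ∈ Q | ic σ y = c} ≤ m := by
    intro σ c
    have h1 := hm (-σ) 1 c (Or.inr one_ne_zero)
    refine le_trans (le_of_eq ?_) h1
    congr 1
    ext x
    simp only [mem_filter, and_congr_right_iff]
    intro _
    unfold ic
    constructor <;> intro h3 <;> linarith
  have hTm' : ∀ σ : ℝ, Tm Q σ ≤ m := fun σ => Finset.sup_le fun c _ => hTm σ c
  have hv : ∀ c, #{y ∈ Q | y.1 = c} ≤ m := by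
    intro c
    have h1 := hm 1 0 c (Or.inl one_ne_zero)
    refine le_trans (le_of_eq ?_) h1
    congr 1
    ext x
    simp
  have hM0 : (0 : ℝ) ≤ (m : ℝ) ^ (4 / 3 : ℝ) := Real.rpow_nonneg (Nat.cast_nonneg _) _
  -- the cover
  have hcov : E P k ⊆ (Cv P q k 1 ∪ Cv P q k (-1)) ∪
      (slp Q).biUnion (fun σ => Cσ P q k σ 1 ∪ Cσ P q k σ (-1)) := by
    intro e he
    have hE := mem_E.mp he
    have hne : q e.1 ≠ q e.2 := fun hq => hE.2.2.1 (h.inj hE.1 hE.2.1 hq)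
    rw [mem_union]
    by_cases h1 : (q e.2).1 - (q e.1).1 = 0
    · left
      have h2 : (q e.2).2 - (q e.1).2 ≠ 0 := by
        intro h2
        exact hne (Prod.ext (by linarith) (by linarith))
      rw [mem_union]
      rcases lt_or_gt_of_ne h2 with h3 | h3
      · right
        unfold Cv
        rw [mem_filter]
        exact ⟨he, by linarith, h1⟩
      · left
        unfold Cv
        rw [mem_filter]
        exact ⟨he, by linarith, h1⟩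
    · right
      rw [mem_biUnion]
      refine ⟨((q e.2).2 - (q e.1).2) / ((q e.2).1 - (q e.1).1), ?_, ?_⟩
      · unfold slp
        rw [mem_image]
        refine ⟨(q e.1, q e.2), ?_, rfl⟩
        rw [mem_filter, mem_product]
        exact ⟨⟨h.mem _ hE.1, h.mem _ hE.2.1⟩, fun h2 => h1 (by simp only at h2; linarith)⟩
      · have h4 : (q e.2).2 - (q e.1).2 =
            ((q e.2).2 - (q e.1).2) / ((q e.2).1 - (q e.1).1) * ((q e.2).1 - (q e.1).1) := by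
          field_simp
        rw [mem_union]
        rcases lt_or_gt_of_ne h1 with h3 | h3
        · right
          unfold Cσ
          rw [mem_filter]
          exact ⟨he, by linarith, h4⟩
        · left
          unfold Cσ
          rw [mem_filter]
          exact ⟨he, by linarith, h4⟩
  have hcard : (#(E P k) : ℝ) ≤ (28 : ℝ) * (m : ℝ) ^ (4 / 3 : ℝ) +
      ∑ σ ∈ slp Q, 28 * (Tm Q σ : ℝ) ^ (4 / 3 : ℝ) := by
    have h1 := (card_le_card hcov).trans (card_union_le _ _)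
    have h2 : (#(E P k) : ℝ) ≤ #(Cv P q k 1 ∪ Cv P q k (-1)) +
        #((slp Q).biUnion (fun σ => Cσ P q k σ 1 ∪ Cσ P q k σ (-1))) := by exact_mod_cast h1
    have h3 : (#(Cv P q k 1 ∪ Cv P q k (-1)) : ℝ) ≤ 28 * (m : ℝ) ^ (4 / 3 : ℝ) := by
      have h4 : (#(Cv P q k 1 ∪ Cv P q k (-1)) : ℝ) ≤ #(Cv P q k 1) + #(Cv P q k (-1)) := by
        exact_mod_cast card_union_le _ _
      have h5 := Cv_card h k (T := m) (s := 1) (Or.inl rfl) hv
      have h6 := Cv_card h k (T := m) (s := -1) (Or.inr rfl) hv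
      linarith
    have h7 : (#((slp Q).biUnion (fun σ => Cσ P q k σ 1 ∪ Cσ P q k σ (-1))) : ℝ) ≤
        ∑ σ ∈ slp Q, 28 * (Tm Q σ : ℝ) ^ (4 / 3 : ℝ) := by
      have h8 : (#((slp Q).biUnion (fun σ => Cσ P q k σ 1 ∪ Cσ P q k σ (-1))) : ℝ) ≤
          ∑ σ ∈ slp Q, (#(Cσ P q k σ 1 ∪ Cσ P q k σ (-1)) : ℝ) := by
        exact_mod_cast card_biUnion_le
      refine h8.trans (Finset.sum_le_sum fun σ _ => ?_)
      have h4 : (#(Cσ P q k σ 1 ∪ Cσ P q k σ (-1)) : ℝ) ≤ #(Cσ P q k σ 1) + #(Cσ P q k σ (-1)) := by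
        exact_mod_cast card_union_le _ _
      have h5 := Cσ_card h k (σ := σ) (s := 1) (Or.inl rfl) (le_Tm Q σ)
      have h6 := Cσ_card h k (σ := σ) (s := -1) (Or.inr rfl) (le_Tm Q σ)
      linarith
    linarith
  have hsum : ∑ σ ∈ slp Q, (Tm Q σ : ℝ) ^ (4 / 3 : ℝ) ≤ (m : ℝ) ^ (4 / 3 : ℝ) +
      6912 * (K ^ 2 * #Q + K * (m : ℝ) ^ (4 / 3 : ℝ)) := by
    have h1 := slopes_sum hQ hQB hK (m := m) ((slp Q).filter (fun σ => σ ≠ 0))
      (fun σ hσ => (mem_filter.mp hσ).2) (fun σ hσ => two_le_Tm (mem_filter.mp hσ).1)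
      (fun σ _ => hTm' σ)
    have h2 : ∑ σ ∈ slp Q with ¬ σ ≠ 0, (Tm Q σ : ℝ) ^ (4 / 3 : ℝ) ≤ (m : ℝ) ^ (4 / 3 : ℝ) := by
      have h3 : ((slp Q).filter (fun σ => ¬ σ ≠ 0)) ⊆ {0} := by
        intro σ hσ
        rw [mem_filter, not_not] at hσ
        rw [mem_singleton]; exact hσ.2
      refine (Finset.sum_le_sum_of_subset_of_nonneg h3 (fun σ _ _ => by positivity)).trans ?_
      rw [Finset.sum_singleton]
      exact Real.rpow_le_rpow (Nat.cast_nonneg _) (by exact_mod_cast hTm' 0) (by norm_num)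
    rw [← Finset.sum_filter_add_sum_filter_not (slp Q) (fun σ => σ ≠ 0)]
    linarith
  rw [← Finset.mul_sum] at hcard
  have h9 : (m : ℝ) ^ (4 / 3 : ℝ) ≤ K * (m : ℝ) ^ (4 / 3 : ℝ) := by nlinarith
  have h10 : 0 ≤ K ^ 2 * #Q := by positivity
  nlinarith

/-- a radius within which the orientations of triples of points of `Q` do not change -/
lemma exists_eps (Q : Finset (ℝ × ℝ)) : ∃ ε : ℝ, 0 < ε ∧ ∀ a ∈ Q, ∀ b ∈ Q, ∀ c ∈ Q,
    0 < cr a b c → ∀ x y z : ℝ × ℝ, dist x a < ε → dist y b < ε → dist z c < ε →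
      0 < cr x y z := by
  classical
  have hcont : Continuous fun w : (ℝ × ℝ) × (ℝ × ℝ) × (ℝ × ℝ) => cr w.1 w.2.1 w.2.2 := by
    unfold cr
    fun_prop
  have h1 : ∀ t ∈ Q ×ˢ (Q ×ˢ Q), ∀ᶠ ε in nhdsWithin (0 : ℝ) (Set.Ioi 0),
      0 < cr t.1 t.2.1 t.2.2 → ∀ x y z : ℝ × ℝ, dist x t.1 < ε → dist y t.2.1 < ε →
        dist z t.2.2 < ε → 0 < cr x y z := by
    intro t _
    by_cases ht : 0 < cr t.1 t.2.1 t.2.2
    · have h2 := (hcont.continuousAt (x := t)).eventually (lt_mem_nhds ht)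
      rw [Metric.eventually_nhds_iff] at h2
      obtain ⟨δ, hδ, h3⟩ := h2
      have h4 : ∀ᶠ ε in nhdsWithin (0 : ℝ) (Set.Ioi 0), ε < δ :=
        eventually_nhdsWithin_of_eventually_nhds (gt_mem_nhds hδ)
      filter_upwards [h4] with ε hε _ x y z hx hy hz
      have h5 : dist ((x, y, z) : (ℝ × ℝ) × (ℝ × ℝ) × (ℝ × ℝ)) t < δ := by
        rw [Prod.dist_eq, Prod.dist_eq]
        exact max_lt (hx.trans hε) (max_lt (hy.trans hε) (hz.trans hε))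
      exact h3 h5
    · filter_upwards with ε h
      exact absurd h ht
  have h2 := (Filter.eventually_all_finset (Q ×ˢ (Q ×ˢ Q))).mpr h1
  obtain ⟨ε, h3, h4⟩ := (h2.and self_mem_nhdsWithin).exists
  refine ⟨ε, h4, fun a ha b hb c hc h5 x y z hx hy hz => ?_⟩
  exact h3 (a, b, c) (by rw [mem_product, mem_product]; exact ⟨ha, hb, hc⟩) h5 x y z hx hy hz

end Pool.Agent.L7h70.HP
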