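import Pool.Agent.L7h70.HP.Dey

/-!
# The window argument: edges of nearly the same direction live in a narrow strip
-/

set_option autoImplicit false

namespace Pool.Agent.L7h70.HP

open Finset Pool.Agent.W296.HL

/-- If for all edges of `S` the points whose level differs by at least `w` from the level of the
edge are on the corresponding side, then `S` is a set of edges of the points of `4 w - 3`
consecutive levels. -/
theorem window {P : Finset (ℝ × ℝ)} {k : ℕ} (lev : ℝ × ℝ → ℤ) {w : ℤ} (hw : 1 ≤ w)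
    (S : Finset ((ℝ × ℝ) × (ℝ × ℝ))) (hS : S ⊆ E P k)
    (hL : ∀ e ∈ S, ∀ x ∈ P, w ≤ lev x - lev e.1 → 0 < cr e.1 e.2 x)
    (hR : ∀ e ∈ S, ∀ x ∈ P, lev x - lev e.1 ≤ -w → cr e.1 e.2 x < 0) :
    ∃ (i : ℤ) (k' : ℕ), S ⊆ E (P.filter (fun x => i - w + 1 ≤ lev x ∧ lev x ≤ i + 3 * w - 3)) k' := by
  classical
  rcases S.eq_empty_or_nonempty with rfl | hne
  · exact ⟨0, 0, Finset.empty_subset _⟩
  obtain ⟨e₀, he₀, hmin⟩ := Finset.exists_min_image S (fun e => lev e.1) hne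
  set i := lev e₀.1 with hi
  -- number of points of level at least `j`
  set F : ℤ → ℕ := fun j => #(P.filter (fun x => j ≤ lev x)) with hF
  have hanti : ∀ j j' : ℤ, j ≤ j' → F j' ≤ F j := by
    intro j j' hj
    refine card_le_card ?_
    intro x hx
    rw [mem_filter] at hx ⊢
    exact ⟨hx.1, hj.trans hx.2⟩
  have h1 : ∀ e ∈ S, F (lev e.1 + w) ≤ k := by
    intro e he
    have h := mem_E.mp (hS he)
    rw [← h.2.2.2]
    refine card_le_card ?_
    intro x hx
    rw [mem_filter] at hx ⊢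
    exact ⟨hx.1, hL e he x hx.1 (by linarith [hx.2])⟩
  have h2 : ∀ e ∈ S, k < F (lev e.1 - w + 1) := by
    intro e he
    have h := mem_E.mp (hS he)
    rw [← h.2.2.2]
    refine card_lt_card ?_
    rw [Finset.ssubset_iff_of_subset]
    · refine ⟨e.1, ?_, ?_⟩
      · rw [mem_filter]
        exact ⟨h.1, by linarith⟩
      · rw [mem_filter]
        rintro ⟨-, h3⟩
        have : cr e.1 e.2 e.1 = 0 := by unfold cr; ring
        rw [this] at h3
        exact lt_irrefl _ h3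
    · intro x hx
      rw [mem_filter] at hx ⊢
      refine ⟨hx.1, ?_⟩
      by_contra h4
      push Not at h4
      have := hR e he x hx.1 (by omega)
      linarith [hx.2]
  have h3 : ∀ e ∈ S, lev e.1 ≤ i + 2 * w - 2 := by
    intro e he
    by_contra h4
    push Not at h4
    have h5 := h1 e₀ he₀
    have h6 := h2 e he
    have h7 := hanti (lev e₀.1 + w) (lev e.1 - w + 1) (by rw [← hi]; omega)
    omega
  refine ⟨i, k - F (i + 3 * w - 2), ?_⟩
  intro e he
  have h := mem_E.mp (hS he)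
  have h4 := hmin e he
  have h5 := h3 e he
  have hA : ∀ x ∈ P, i + 3 * w - 2 ≤ lev x → 0 < cr e.1 e.2 x :=
    fun x hx h6 => hL e he x hx (by omega)
  have hB : ∀ x ∈ P, lev x ≤ i - w → cr e.1 e.2 x < 0 :=
    fun x hx h6 => hR e he x hx (by omega)
  have hin : ∀ x ∈ P, cr e.1 e.2 x = 0 → i - w + 1 ≤ lev x ∧ lev x ≤ i + 3 * w - 3 := by
    intro x hx h6
    constructor
    · by_contra h7
      have := hB x hx (by omega)
      linarith
    · by_contra h7
      have := hA x hx (by omega)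
      linarith
  rw [mem_E]
  refine ⟨?_, ?_, h.2.2.1, ?_⟩
  · rw [mem_filter]
    exact ⟨h.1, hin _ h.1 (by unfold cr; ring)⟩
  · rw [mem_filter]
    exact ⟨h.2.1, hin _ h.2.1 (by unfold cr; ring)⟩
  · have h6 : P.filter (fun x => 0 < cr e.1 e.2 x) =
        ((P.filter (fun x => i - w + 1 ≤ lev x ∧ lev x ≤ i + 3 * w - 3)).filter
          (fun x => 0 < cr e.1 e.2 x)) ∪ P.filter (fun x => i + 3 * w - 2 ≤ lev x) := by
      ext x
      simp only [mem_filter, mem_union]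
      constructor
      · rintro ⟨hx, h7⟩
        by_cases h8 : i + 3 * w - 2 ≤ lev x
        · exact Or.inr ⟨hx, h8⟩
        · left
          refine ⟨⟨hx, ?_, by omega⟩, h7⟩
          by_contra h9
          have := hB x hx (by omega)
          linarith
      · rintro (⟨⟨hx, -⟩, h7⟩ | ⟨hx, h7⟩)
        · exact ⟨hx, h7⟩
        · exact ⟨hx, hA x hx h7⟩
    have h7 : Disjoint ((P.filter (fun x => i - w + 1 ≤ lev x ∧ lev x ≤ i + 3 * w - 3)).filter
          (fun x => 0 < cr e.1 e.2 x)) (P.filter (fun x => i + 3 * w - 2 ≤ lev x)) := by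
      rw [Finset.disjoint_left]
      intro x hx hx'
      simp only [mem_filter] at hx hx'
      omega
    have h8 := h.2.2.2
    rw [h6, card_union_of_disjoint h7] at h8
    have h9 : F (i + 3 * w - 2) = #(P.filter (fun x => i + 3 * w - 2 ≤ lev x)) := rfl
    rw [h9]
    omega

/-- at most `N / m + 1` points of the grid `[1, N]²` are on a line of primitive direction
`(s m, s j)`, where `m ≥ |j|` -/
lemma grid_line {N m : ℕ} (hm : 1 ≤ m) {j i : ℤ} (hc : IsCoprime (m : ℤ) j) {s : ℤ}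
    (hs : s = 1 ∨ s = -1) :
    #{z ∈ (Icc (1 : ℤ) N) ×ˢ (Icc (1 : ℤ) N) | s * (m * z.2 - j * z.1) = i} ≤ N / m + 1 := by
  classical
  have hm0 : (0 : ℤ) < m := by exact_mod_cast hm
  -- the first coordinates are in one class modulo `m`, and differ by at most `N - 1`
  rcases Finset.eq_empty_or_nonempty
    {z ∈ (Icc (1 : ℤ) N) ×ˢ (Icc (1 : ℤ) N) | s * (m * z.2 - j * z.1) = i} with h0 | hne
  · rw [h0]; simp
  obtain ⟨z₀, hz₀, hmin⟩ := Finset.exists_min_image _ (fun z : ℤ × ℤ => z.1) hne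
  rw [mem_filter, mem_product, mem_Icc, mem_Icc] at hz₀
  have hval : ∀ z : ℤ × ℤ, s * (m * z.2 - j * z.1) = i → (m : ℤ) * (z.2 - z₀.2) = j * (z.1 - z₀.1) := by
    intro z hz
    rcases hs with rfl | rfl <;> linarith [hz₀.2]
  refine (card_le_card_of_injOn (t := Finset.range (N / m + 1))
    (fun z => ((z.1 - z₀.1) / m).toNat) ?_ ?_).trans (by simp)
  · intro z hz
    have hz' := hmin z (by exact hz)
    rw [mem_coe, mem_filter, mem_product, mem_Icc, mem_Icc] at hz
    rw [mem_coe, mem_range]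
    have h1 : 0 ≤ (z.1 - z₀.1) / (m : ℤ) := Int.ediv_nonneg (by linarith) hm0.le
    have h2 : (z.1 - z₀.1) / (m : ℤ) ≤ (N : ℤ) / m := Int.ediv_le_ediv hm0 (by linarith [hz₀.1.1.1])
    have h3 : ((N : ℤ) / m) = ((N / m : ℕ) : ℤ) := by push_cast; rfl
    show ((z.1 - z₀.1) / (m : ℤ)).toNat < N / m + 1
    rw [h3] at h2
    generalize (z.1 - z₀.1) / (m : ℤ) = u at h1 h2
    omega
  · intro z hz z' hz' h
    have hz1 := hmin z (by exact hz)
    have hz1' := hmin z' (by exact hz')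
    rw [mem_coe, mem_filter] at hz hz'
    have e1 := hval z hz.2
    have e2 := hval z' hz'.2
    have d1 : (m : ℤ) ∣ z.1 - z₀.1 := hc.dvd_of_dvd_mul_left (e1 ▸ Dvd.intro _ rfl)
    have d2 : (m : ℤ) ∣ z'.1 - z₀.1 := hc.dvd_of_dvd_mul_left (e2 ▸ Dvd.intro _ rfl)
    obtain ⟨a, ha⟩ := d1
    obtain ⟨b, hb⟩ := d2
    simp only at h
    rw [ha, hb, Int.mul_ediv_cancel_left _ hm0.ne', Int.mul_ediv_cancel_left _ hm0.ne'] at h
    have ha0 : 0 ≤ a := by
      by_contra hc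
      push Not at hc
      have := mul_neg_of_pos_of_neg hm0 hc
      linarith
    have hb0 : 0 ≤ b := by
      by_contra hc
      push Not at hc
      have := mul_neg_of_pos_of_neg hm0 hc
      linarith
    have hab : a = b := by omega
    have hz1eq : z.1 = z'.1 := by rw [hab] at ha; linarith
    have hz2eq : z.2 = z'.2 := by
      have h5 : (m : ℤ) * (z.2 - z₀.2) = m * (z'.2 - z₀.2) := by rw [e1, e2, hz1eq]
      have := mul_left_cancel₀ hm0.ne' h5
      linarith
    exact Prod.ext hz1eq hz2eq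

/-- the level of a point -/
def lv (X : ℝ × ℝ → ℤ × ℤ) (s : ℤ) (m : ℕ) (j : ℤ) (x : ℝ × ℝ) : ℤ :=
  s * (m * (X x).2 - j * (X x).1)

lemma strip_card {P : Finset (ℝ × ℝ)} {X : ℝ × ℝ → ℤ × ℤ} {N μ m : ℕ}
    (hX : ∀ x ∈ P, 1 ≤ (X x).1 ∧ (X x).1 ≤ N ∧ 1 ≤ (X x).2 ∧ (X x).2 ≤ N)
    (hμ : ∀ z, #{x ∈ P | X x = z} ≤ μ) (hm : 1 ≤ m) {j : ℤ} (hc : IsCoprime (m : ℤ) j) {s : ℤ}
    (hs : s = 1 ∨ s = -1) (a : ℤ) (t : ℕ) :
    #{x ∈ P | a ≤ lv X s m j x ∧ lv X s m j x < a + t} ≤ t * ((N / m + 1) * μ) := by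
  classical
  have hsub : {x ∈ P | a ≤ lv X s m j x ∧ lv X s m j x < a + t} ⊆
      (Ico a (a + t)).biUnion (fun i =>
        ({z ∈ (Icc (1 : ℤ) N) ×ˢ (Icc (1 : ℤ) N) | s * (m * z.2 - j * z.1) = i}).biUnion
          (fun z => {x ∈ P | X x = z})) := by
    intro x hx
    rw [mem_filter] at hx
    rw [mem_biUnion]
    refine ⟨lv X s m j x, mem_Ico.mpr hx.2, ?_⟩
    rw [mem_biUnion]
    refine ⟨X x, ?_, ?_⟩
    · rw [mem_filter, mem_product, mem_Icc, mem_Icc]
      obtain ⟨h1, h2, h3, h4⟩ := hX x hx.1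
      exact ⟨⟨⟨h1, h2⟩, h3, h4⟩, rfl⟩
    · rw [mem_filter]
      exact ⟨hx.1, rfl⟩
  refine (card_le_card hsub).trans ?_
  refine (card_biUnion_le).trans ?_
  have h1 : ∀ i ∈ Ico a (a + t), #(({z ∈ (Icc (1 : ℤ) N) ×ˢ (Icc (1 : ℤ) N) |
      s * (m * z.2 - j * z.1) = i}).biUnion (fun z => {x ∈ P | X x = z})) ≤ (N / m + 1) * μ := by
    intro i _
    refine (card_biUnion_le).trans ?_
    refine (Finset.sum_le_card_nsmul _ _ μ (fun z _ => hμ z)).trans ?_
    rw [smul_eq_mul]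
    exact Nat.mul_le_mul_right _ (grid_line hm hc hs)
  refine (Finset.sum_le_card_nsmul _ _ _ h1).trans ?_
  rw [smul_eq_mul, Int.card_Ico]
  simp

end Pool.Agent.L7h70.HP
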